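import Pool.Agent.P.MP_d7339e_co.Defs

/- Coordinates on a theta graph, and elementary facts on consistent path systems. -/

set_option autoImplicit false

namespace Pool.Agent.P.MP_d7339e_co

open SimpleGraph

/-- Coordinates on a theta graph. -/
structure Coord {V : Type} (G : SimpleGraph V) (n : Fin 3 → ℕ) (s t : V)
    (nd : Fin 3 → ℕ → V) : Prop where
  pos : ∀ i, 1 ≤ n i
  one : ∀ i j, n i = 1 → n j = 1 → i = j
  zero : ∀ i, nd i 0 = s
  last : ∀ i, nd i (n i) = t
  inj : ∀ i k l, k ≤ n i → l ≤ n i → nd i k = nd i l → k = l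
  cross : ∀ i j k l, i ≠ j → k ≤ n i → l ≤ n j → nd i k = nd j l →
    (k = 0 ∧ l = 0) ∨ (k = n i ∧ l = n j)
  cover : ∀ v, ∃ i k, k ≤ n i ∧ v = nd i k
  adj : ∀ i k, k < n i → G.Adj (nd i k) (nd i (k + 1))
  adj_inv : ∀ u v, G.Adj u v → ∃ i k, k < n i ∧
    ((u = nd i k ∧ v = nd i (k + 1)) ∨ (v = nd i k ∧ u = nd i (k + 1)))

theorem IsTheta.coord {V : Type} {G : SimpleGraph V} {n : Fin 3 → ℕ} (h : IsTheta G n)
    (hpos : ∀ i, 1 ≤ n i) (hone : ∀ i j, n i = 1 → n j = 1 → i = j) :
    ∃ s t nd, Coord G n s t nd := by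
  obtain ⟨s, t, p, hp, hl, hd, hc, he⟩ := h
  have hinj : ∀ i k l, k ≤ n i → l ≤ n i → (p i).getVert k = (p i).getVert l → k = l := by
    intro i k l hk hl' h
    exact (hp i).getVert_injOn (by simpa [hl] using hk) (by simpa [hl] using hl') h
  have hz : ∀ i, (p i).getVert 0 = s := fun i => by simp
  have hlast : ∀ i, (p i).getVert (n i) = t := fun i => by rw [← hl i]; simp
  refine ⟨s, t, fun i k => (p i).getVert k, hpos, hone, hz, hlast, hinj, ?_, ?_, ?_, ?_⟩
  · intro i j k l hij hk hl' h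
    have h1 : (p i).getVert k ∈ (p i).support := Walk.getVert_mem_support _ _
    have h2 : (p i).getVert k ∈ (p j).support := by
      have := Walk.getVert_mem_support (p j) l
      rwa [h]
    rcases hd i j hij _ h1 h2 with h3 | h3
    · left
      exact ⟨hinj i k 0 hk (by omega) (by rw [h3, hz]), hinj j l 0 hl' (by omega) (by rw [← h, h3, hz])⟩
    · right
      exact ⟨hinj i k _ hk le_rfl (by rw [h3, hlast]), hinj j l _ hl' le_rfl (by rw [← h, h3, hlast])⟩
  · intro v
    obtain ⟨i, hi⟩ := hc v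
    obtain ⟨k, hk, hk'⟩ := Walk.mem_support_iff_exists_getVert.1 hi
    exact ⟨i, k, by rwa [← hl], hk.symm⟩
  · intro i k hk
    exact (p i).adj_getVert_succ (by rwa [hl])
  · intro u v huv
    obtain ⟨i, hi⟩ := he s(u, v) huv
    obtain ⟨k, hk, hk'⟩ := (Walk.mk_mem_edges_iff_exists _).1 hi
    refine ⟨i, k, by rwa [← hl], ?_⟩
    rw [Sym2.eq_iff] at hk'
    rcases hk' with ⟨h1, h2⟩ | ⟨h1, h2⟩
    · left; exact ⟨h1.symm, h2.symm⟩
    · right; exact ⟨h1.symm, h2.symm⟩

namespace Coord

variable {V : Type} {G : SimpleGraph V} {n : Fin 3 → ℕ} {s t : V} {nd : Fin 3 → ℕ → V}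

theorem s_ne_t (C : Coord G n s t nd) : s ≠ t := by
  intro h
  have := C.inj 0 0 (n 0) (by omega) le_rfl (by rw [C.zero, C.last, h])
  have := C.pos 0
  omega

theorem eq_s (C : Coord G n s t nd) {i : Fin 3} {k : ℕ} (hk : k ≤ n i) (h : nd i k = s) : k = 0 :=
  C.inj i k 0 hk (by omega) (by rw [h, C.zero])

theorem eq_t (C : Coord G n s t nd) {i : Fin 3} {k : ℕ} (hk : k ≤ n i) (h : nd i k = t) :
    k = n i :=
  C.inj i k _ hk le_rfl (by rw [h, C.last])

/-- Two coordinates of one vertex. -/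
theorem same (C : Coord G n s t nd) {i j : Fin 3} {k l : ℕ} (hk : k ≤ n i) (hl : l ≤ n j)
    (h : nd i k = nd j l) : (i = j ∧ k = l) ∨ (k = 0 ∧ l = 0) ∨ (k = n i ∧ l = n j) := by
  by_cases hij : i = j
  · subst hij; exact Or.inl ⟨rfl, C.inj i k l hk hl h⟩
  · exact Or.inr (C.cross i j k l hij hk hl h)

/-- Neighbours of an inner vertex. -/
theorem nbr_inner (C : Coord G n s t nd) {i : Fin 3} {k : ℕ} (hk : k + 1 < n i) {x : V}
    (h : G.Adj (nd i (k + 1)) x) : x = nd i k ∨ x = nd i (k + 2) := by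
  obtain ⟨j, l, hl, h' | h'⟩ := C.adj_inv _ _ h
  · rcases C.same (by omega) (by omega) h'.1 with ⟨rfl, rfl⟩ | h2 | h2
    · exact Or.inr h'.2
    · omega
    · omega
  · rcases C.same (by omega) (by omega) h'.2 with ⟨rfl, h2⟩ | h2 | h2
    · obtain rfl : k = l := by omega
      exact Or.inl h'.1
    · omega
    · omega

theorem nbr_s (C : Coord G n s t nd) {x : V} (h : G.Adj s x) : ∃ j, x = nd j 1 := by
  obtain ⟨j, l, hl, h' | h'⟩ := C.adj_inv _ _ h
  · have := C.eq_s hl.le h'.1.symm
    subst this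
    exact ⟨j, h'.2⟩
  · have := C.eq_s (show l + 1 ≤ n j by omega) h'.2.symm
    omega

theorem nbr_t (C : Coord G n s t nd) {x : V} (h : G.Adj t x) :
    ∃ j k, k + 1 = n j ∧ x = nd j k := by
  obtain ⟨j, l, hl, h' | h'⟩ := C.adj_inv _ _ h
  · have := C.eq_t hl.le h'.1.symm
    omega
  · have := C.eq_t (show l + 1 ≤ n j by omega) h'.2.symm
    exact ⟨j, l, this, h'.1⟩

theorem edge_inj (C : Coord G n s t nd) {i j : Fin 3} {k l : ℕ} (hk : k < n i) (hl : l < n j)
    (h : s(nd i k, nd i (k + 1)) = s(nd j l, nd j (l + 1))) : i = j ∧ k = l := by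
  rw [Sym2.eq_iff] at h
  rcases h with ⟨h1, h2⟩ | ⟨h1, h2⟩
  · rcases C.same hk.le hl.le h1 with h3 | h3 | h3
    · exact h3
    · rcases C.same (show k + 1 ≤ n i by omega) (show l + 1 ≤ n j by omega) h2 with h4 | h4 | h4
      · exact ⟨h4.1, by omega⟩
      · omega
      · exact ⟨C.one i j (by omega) (by omega), by omega⟩
    · omega
  · rcases C.same hk.le (show l + 1 ≤ n j by omega) h1 with h3 | h3 | h3
    · rcases C.same (show k + 1 ≤ n i by omega) hl.le h2 with h4 | h4 | h4 <;> omega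
    · omega
    · omega

end Coord

/-- A consistent path system. -/
structure Sys {V : Type} {G : SimpleGraph V} (P : (u v : V) → G.Walk u v) : Prop where
  path : ∀ u v, (P u v).IsPath
  rev : ∀ u v, P v u = (P u v).reverse
  cons : ∀ (u v x y : V) (q : G.Walk x y), q.IsSubwalk (P u v) → q = P x y

namespace Sys

variable {V : Type} {G : SimpleGraph V} {P : (u v : V) → G.Walk u v}

theorem split (S : Sys P) {u z v : V} (h : z ∈ (P u v).support) :
    P u v = (P u z).append (P z v) := by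
  obtain ⟨q, r, hqr⟩ := Walk.mem_support_iff_exists_append.1 h
  have h1 : q = P u z := S.cons u v _ _ q (Walk.isSubwalk_of_append_left hqr)
  have h2 : r = P z v := S.cons u v _ _ r (Walk.isSubwalk_of_append_right hqr)
  rw [hqr, h1, h2]

theorem symm (S : Sys P) {u z v : V} (h : z ∈ (P u v).support) : z ∈ (P v u).support := by
  rw [S.rev]; simpa using h

theorem not_nil (S : Sys P) {u v : V} (h : u ≠ v) : ¬ (P u v).Nil := by
  rw [(S.path u v).nil_iff_eq]; exact h

theorem adj_snd (S : Sys P) {u v : V} (h : u ≠ v) : G.Adj u (P u v).snd :=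
  Walk.adj_snd (S.not_nil h)

theorem snd_mem (u v : V) : (P u v).snd ∈ (P u v).support := Walk.getVert_mem_support _ _

theorem snd_eq (S : Sys P) {u z v : V} (h : z ∈ (P u v).support) (hz : u ≠ z) :
    (P u z).snd = (P u v).snd := by
  rw [S.split h]
  have := S.not_nil hz
  generalize P u z = q at this ⊢
  cases q with
  | nil => simp at this
  | cons h p => simp

theorem trans_right (S : Sys P) {u z y v : V} (h : z ∈ (P u v).support)
    (h' : y ∈ (P z v).support) : y ∈ (P u v).support := by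
  rw [S.split h]; simp [h']

theorem trans_left (S : Sys P) {u z y v : V} (h : z ∈ (P u v).support)
    (h' : y ∈ (P u z).support) : y ∈ (P u v).support := by
  rw [S.split h]; simp [h']

theorem meet (S : Sys P) {u z y v : V} (h : z ∈ (P u v).support)
    (h1 : y ∈ (P u z).support) (h2 : y ∈ (P z v).support) : y = z := by
  by_contra hne
  have hp := S.path u v
  rw [S.split h] at hp
  exact hp.ne_of_mem_support_of_append hne h1 h2 rfl

theorem antisymm (S : Sys P) {v x y : V} (h1 : x ∈ (P v y).support) (h2 : y ∈ (P v x).support) :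
    x = y :=
  (S.meet h1 h2 (Walk.end_mem_support _)).symm

theorem no_back (S : Sys P) {u z v : V} (huv : u ≠ v) (h1 : (P u v).snd = z)
    (h2 : (P z v).snd = u) : False := by
  have a1 : z ∈ (P u v).support := h1 ▸ snd_mem u v
  have a2 : u ∈ (P z v).support := h2 ▸ snd_mem z v
  have := S.meet a1 (Walk.start_mem_support _) a2
  have a3 := S.adj_snd huv
  rw [h1] at a3
  exact a3.ne this

theorem self_nil (S : Sys P) (u : V) : P u u = Walk.nil := by
  have := S.path u u
  rw [Walk.isPath_iff_nil] at this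
  exact this.eq_nil

theorem eq_cons (S : Sys P) {u v : V} (h : u ≠ v) :
    P u v = Walk.cons (S.adj_snd h) (P (P u v).snd v) := by
  have h1 := Walk.cons_tail_eq (P u v) (S.not_nil h)
  have h2 : (P u v).tail = P (P u v).snd v :=
    S.cons u v _ _ _ (Walk.isSubwalk_drop _ _)
  rw [← h2]; exact h1.symm

theorem edge_symm (S : Sys P) {x y : V} (hne : y ≠ x) (h : (P y x).snd = x) : (P x y).snd = y := by
  have h1 : (P x y).snd ∈ (P y x).support := S.symm (snd_mem x y)
  rw [S.eq_cons hne] at h1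
  simp only [Walk.support_cons, List.mem_cons] at h1
  rcases h1 with h1 | h1
  · exact h1
  · rw [h, S.self_nil] at h1
    simp only [Walk.support_nil, List.mem_singleton] at h1
    exact absurd h1.symm (S.adj_snd hne.symm).ne

end Sys

end Pool.Agent.P.MP_d7339e_co
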