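import Pool.Agent.P.MP_d7339e_co.Fwd

/- The non-metrizable theta graphs. -/

set_option autoImplicit false

namespace Pool.Agent.P.MP_d7339e_co

open SimpleGraph

variable {V : Type} {G : SimpleGraph V} {n : Fin 3 → ℕ} {s t : V} {nd : Fin 3 → ℕ → V}

theorem seg_exists (C : Coord G n s t nd) (i : Fin 3) (m : ℕ) :
    ∀ r, m ≤ r → r ≤ n i → ∃ q : G.Walk (nd i m) (nd i r), q.IsPath ∧
      (∀ z, z ∈ q.support ↔ ∃ k, m ≤ k ∧ k ≤ r ∧ z = nd i k) ∧
      ∀ w : Sym2 V → ℝ, (q.edges.map w).sum =
        ∑ k ∈ Finset.range r, w s(nd i k, nd i (k + 1)) -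
          ∑ k ∈ Finset.range m, w s(nd i k, nd i (k + 1)) := by
  intro r hr
  induction r, hr using Nat.le_induction with
  | base =>
    intro _
    refine ⟨Walk.nil, Walk.IsPath.nil, ?_, by simp⟩
    intro z
    simp only [Walk.support_nil, List.mem_singleton]
    constructor
    · rintro rfl; exact ⟨m, le_rfl, le_rfl, rfl⟩
    · rintro ⟨k, h1, h2, rfl⟩
      rw [show k = m by omega]
  | succ r hr ih =>
    intro hn
    obtain ⟨q, hq, hs, hw⟩ := ih (by omega)
    refine ⟨q.concat (C.adj i r hn), hq.concat ?_ _, ?_, ?_⟩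
    · rw [hs]
      rintro ⟨k, h1, h2, h3⟩
      have := C.inj i _ _ hn (by omega) h3
      omega
    · intro z
      simp only [Walk.support_concat, List.mem_append, List.mem_singleton, hs]
      constructor
      · rintro (⟨k, h1, h2, rfl⟩ | rfl)
        · exact ⟨k, h1, by omega, rfl⟩
        · exact ⟨r + 1, by omega, le_rfl, rfl⟩
      · rintro ⟨k, h1, h2, rfl⟩
        by_cases h : k = r + 1
        · right; rw [h]
        · left; exact ⟨k, h1, by omega, rfl⟩
    · intro w
      simp only [Walk.edges_concat, List.concat_eq_append, List.map_append, List.sum_append, hw,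
        Finset.sum_range_succ]
      simp
      ring

theorem isPath_append {u v x : V} {p : G.Walk u v} {q : G.Walk v x} (hp : p.IsPath)
    (hq : q.IsPath) (h : ∀ z, z ∈ p.support → z ∈ q.support → z = v) : (p.append q).IsPath := by
  rw [Walk.isPath_def, Walk.support_append, List.nodup_append]
  refine ⟨hp.support_nodup, hq.support_nodup.tail, ?_⟩
  intro a ha b hb hab
  subst hab
  have h1 := h a ha (List.mem_of_mem_tail hb)
  have h2 := hq.support_nodup
  rw [← Walk.cons_tail_support, List.nodup_cons] at h2
  exact h2.1 (h1 ▸ hb)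

theorem via_s (C : Coord G n s t nd) {i j : Fin 3} (hij : i ≠ j) {k l : ℕ} (hk : k < n i)
    (hl : l < n j) : ∃ q : G.Walk (nd i k) (nd j l), q.IsPath ∧
      (∀ z, z ∈ q.support → (∃ a, a ≤ k ∧ z = nd i a) ∨ (∃ a, a ≤ l ∧ z = nd j a)) ∧
      ∀ w : Sym2 V → ℝ, (q.edges.map w).sum =
        ∑ a ∈ Finset.range k, w s(nd i a, nd i (a + 1)) +
          ∑ a ∈ Finset.range l, w s(nd j a, nd j (a + 1)) := by
  obtain ⟨p, hp, hps, hpw⟩ := seg_exists C i 0 k (by omega) hk.le
  obtain ⟨q, hq, hqs, hqw⟩ := seg_exists C j 0 l (by omega) hl.le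
  have e : nd j 0 = nd i 0 := by rw [C.zero, C.zero]
  refine ⟨p.reverse.append (q.copy e rfl), isPath_append hp.reverse (by simpa using hq) ?_, ?_, ?_⟩
  · intro z h1 h2
    simp only [Walk.support_reverse, List.mem_reverse, Walk.support_copy, hps, hqs] at h1 h2
    obtain ⟨a, -, a1, rfl⟩ := h1
    obtain ⟨b, -, b1, h⟩ := h2
    rcases C.cross i j a b hij (by omega) (by omega) h with h | h
    · rw [h.1]
    · omega
  · intro z hz
    simp only [Walk.mem_support_append_iff, Walk.support_reverse, List.mem_reverse,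
      Walk.support_copy, hps, hqs] at hz
    rcases hz with ⟨a, -, a1, h⟩ | ⟨a, -, a1, h⟩
    · exact Or.inl ⟨a, a1, h⟩
    · exact Or.inr ⟨a, a1, h⟩
  · intro w
    simp [hpw, hqw, List.sum_reverse]

theorem via_t (C : Coord G n s t nd) {i j : Fin 3} (hij : i ≠ j) {k l : ℕ} (hk0 : 0 < k)
    (hk : k ≤ n i) (hl : l ≤ n j) : ∃ q : G.Walk (nd i k) (nd j l), q.IsPath ∧
      (∀ z, z ∈ q.support →
        (∃ a, k ≤ a ∧ a ≤ n i ∧ z = nd i a) ∨ (∃ a, l ≤ a ∧ a ≤ n j ∧ z = nd j a)) ∧
      ∀ w : Sym2 V → ℝ, (q.edges.map w).sum =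
        (∑ a ∈ Finset.range (n i), w s(nd i a, nd i (a + 1)) -
          ∑ a ∈ Finset.range k, w s(nd i a, nd i (a + 1))) +
        (∑ a ∈ Finset.range (n j), w s(nd j a, nd j (a + 1)) -
          ∑ a ∈ Finset.range l, w s(nd j a, nd j (a + 1))) := by
  obtain ⟨p, hp, hps, hpw⟩ := seg_exists C i k (n i) hk le_rfl
  obtain ⟨q, hq, hqs, hqw⟩ := seg_exists C j l (n j) hl le_rfl
  have e : nd j (n j) = nd i (n i) := by rw [C.last, C.last]
  refine ⟨p.append (q.reverse.copy e rfl), isPath_append hp (by simpa using hq) ?_, ?_, ?_⟩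
  · intro z h1 h2
    simp only [Walk.support_reverse, List.mem_reverse, Walk.support_copy, hps, hqs] at h1 h2
    obtain ⟨a, a0, a1, rfl⟩ := h1
    obtain ⟨b, b0, b1, h⟩ := h2
    rcases C.cross i j a b hij a1 b1 h with h | h
    · omega
    · rw [h.1]
  · intro z hz
    simp only [Walk.mem_support_append_iff, Walk.support_reverse, List.mem_reverse,
      Walk.support_copy, hps, hqs] at hz
    exact hz
  · intro w
    simp [hpw, hqw, List.sum_reverse]

theorem walk_down (C : Coord G n s t nd) (i : Fin 3) {v : V} :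
    ∀ (k : ℕ) (q : G.Walk (nd i k) v), k < n i → q.IsPath → nd i (k + 1) ∉ q.support →
      (∃ m, m ≤ k ∧ v = nd i m) ∨ s ∈ q.support := by
  intro k
  induction k with
  | zero => intro q _ _ _; right; rw [← C.zero i]; exact q.start_mem_support
  | succ k ih =>
    intro q hk hq hn
    by_cases hnil : q.Nil
    · left; exact ⟨k + 1, le_rfl, hnil.eq.symm⟩
    · have h1 := Walk.cons_support_tail hnil
      rcases C.nbr_inner hk (Walk.adj_snd hnil) with h | h
      · have h2 := hq.support_nodup
        rw [← h1, List.nodup_cons] at h2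
        rcases ih (q.tail.copy h rfl) (by omega) (by simpa using hq.tail) (by simpa using h2.1)
          with ⟨m, a, b⟩ | a
        · left; exact ⟨m, by omega, b⟩
        · right
          rw [← h1]
          exact List.mem_cons_of_mem _ (by simpa using a)
      · exact (hn (h ▸ Walk.getVert_mem_support q 1)).elim

theorem walk_up (C : Coord G n s t nd) (i : Fin 3) {v : V} :
    ∀ (d k : ℕ) (q : G.Walk (nd i (k + 1)) v), k + 1 + d = n i → q.IsPath → nd i k ∉ q.support →
      (∃ m, k + 1 ≤ m ∧ m ≤ n i ∧ v = nd i m) ∨ t ∈ q.support := by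
  intro d
  induction d with
  | zero =>
    intro k q hk _ _
    right
    have : t = nd i (k + 1) := by rw [← C.last i, ← hk]
    rw [this]; exact q.start_mem_support
  | succ d ih =>
    intro k q hk hq hn
    by_cases hnil : q.Nil
    · left; exact ⟨k + 1, le_rfl, by omega, hnil.eq.symm⟩
    · have h1 := Walk.cons_support_tail hnil
      rcases C.nbr_inner (by omega) (Walk.adj_snd hnil) with h | h
      · exact (hn (h ▸ Walk.getVert_mem_support q 1)).elim
      · have h2 := hq.support_nodup
        rw [← h1, List.nodup_cons] at h2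
        rcases ih (k + 1) (q.tail.copy h rfl) (by omega) (by simpa using hq.tail)
          (by simpa using h2.1) with ⟨m, a, a', b⟩ | a
        · left; exact ⟨m, by omega, a', b⟩
        · right
          rw [← h1]
          exact List.mem_cons_of_mem _ (by simpa using a)

theorem stay (C : Coord G n s t nd) (i : Fin 3) (lo hi : ℕ) (hhi : hi ≤ n i) {x y : V}
    (r : G.Walk x y) : (∃ a, lo < a ∧ a < hi ∧ x = nd i a) → nd i lo ∉ r.support →
      nd i hi ∉ r.support → ∃ a, lo < a ∧ a < hi ∧ y = nd i a := by
  induction r with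
  | nil => intro h _ _; exact h
  | @cons x z y h r ih =>
    rintro ⟨a, a1, a2, rfl⟩ h1 h2
    simp only [Walk.support_cons, List.mem_cons, not_or] at h1 h2
    obtain ⟨a, rfl⟩ : ∃ k', a = k' + 1 := ⟨a - 1, by omega⟩
    apply ih _ h1.2 h2.2
    rcases C.nbr_inner (by omega) h with e | e
    · have : a ≠ lo := by rintro rfl; exact h1.2 (e ▸ r.start_mem_support)
      exact ⟨a, by omega, by omega, e⟩
    · have : a + 2 ≠ hi := by rintro rfl; exact h2.2 (e ▸ r.start_mem_support)
      exact ⟨a + 2, by omega, by omega, e⟩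

/-- The paths of the bad system. -/
structure Good (n : Fin 3 → ℕ) (s t : V) (nd : Fin 3 → ℕ → V) {u v : V} (q : G.Walk u v) :
    Prop where
  path : q.IsPath
  both : s ∈ q.support → t ∈ q.support → ∀ z ∈ q.support, ∃ r, r ≤ n 0 ∧ z = nd 0 r
  side : ∀ i k l, 0 < k → k < n i → 0 < l → l < n (i + 1) → nd i k ∈ q.support →
    nd (i + 1) l ∈ q.support → (k + 2 ≤ n i → t ∉ q.support) ∧ (k + 1 = n i → s ∉ q.support)

theorem Good.of_subset {u v x y : V} {q : G.Walk u v} {p : G.Walk x y} (h : Good n s t nd q)
    (hp : p.IsPath) (hs : ∀ z, z ∈ p.support → z ∈ q.support) : Good n s t nd p :=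
  ⟨hp, fun a b z hz => h.both (hs _ a) (hs _ b) z (hs _ hz),
    fun i k l a b c d e f =>
      ⟨fun g g' => (h.side i k l a b c d (hs _ e) (hs _ f)).1 g (hs _ g'),
       fun g g' => (h.side i k l a b c d (hs _ e) (hs _ f)).2 g (hs _ g')⟩⟩

theorem Good.reverse {u v : V} {q : G.Walk u v} (h : Good n s t nd q) :
    Good n s t nd q.reverse :=
  h.of_subset h.path.reverse (by simp)

theorem fin3_cases (i j : Fin 3) (h : i ≠ j) : j = i + 1 ∨ i = j + 1 := by
  revert i j; decide

theorem fin3_ne (i : Fin 3) : i ≠ i + 1 := by revert i; decide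

theorem fin3_ne' (i j : Fin 3) (h : j = i + 1) : i ≠ j + 1 := by revert i j; decide

/-- A good path containing inner vertices of two branches does not contain both ends, and the end
it may contain depends only on these vertices. -/
theorem good_clash {u v u' v' : V} {q : G.Walk u v} {p : G.Walk u' v'} (hq : Good n s t nd q)
    (hp : Good n s t nd p) {i j : Fin 3} (hij : i ≠ j) {k l : ℕ} (k0 : 0 < k) (kn : k < n i)
    (l0 : 0 < l) (ln : l < n j) (q1 : nd i k ∈ q.support) (q2 : nd j l ∈ q.support)
    (p1 : nd i k ∈ p.support) (p2 : nd j l ∈ p.support) (hs : s ∈ q.support)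
    (ht : t ∈ p.support) : False := by
  rcases fin3_cases i j hij with rfl | rfl
  · by_cases h : k + 1 = n i
    · exact (hq.side i k l k0 kn l0 ln q1 q2).2 h hs
    · exact (hp.side i k l k0 kn l0 ln p1 p2).1 (by omega) ht
  · by_cases h : l + 1 = n j
    · exact (hq.side j l k l0 ln k0 kn q2 q1).2 h hs
    · exact (hp.side j l k l0 ln k0 kn p2 p1).1 (by omega) ht

theorem tail_facts {u v : V} {q : G.Walk u v} (hq : q.IsPath) (hnil : ¬ q.Nil) :
    q.tail.IsPath ∧ u ∉ q.tail.support ∧ ∀ z, z ∈ q.tail.support → z ∈ q.support := by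
  have h1 := Walk.cons_support_tail hnil
  have h2 := hq.support_nodup
  rw [← h1, List.nodup_cons] at h2
  refine ⟨hq.tail, h2.1, fun z hz => ?_⟩
  rw [← h1]; exact List.mem_cons_of_mem _ hz

theorem first_down (C : Coord G n s t nd) {i : Fin 3} {k : ℕ} {u v : V} {q : G.Walk u v}
    (hq : q.IsPath) (hnil : ¬ q.Nil) (hk : k < n i) (hu : u = nd i (k + 1)) (h : q.snd = nd i k) :
    (∃ m, m ≤ k ∧ v = nd i m) ∨ s ∈ q.support := by
  obtain ⟨a, b, c⟩ := tail_facts hq hnil
  rcases walk_down C i k (q.tail.copy h rfl) hk (by simpa using a) (by simpa [← hu] using b)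
    with h | h
  · exact Or.inl h
  · exact Or.inr (c _ (by simpa using h))

theorem first_up (C : Coord G n s t nd) {i : Fin 3} {k : ℕ} {u v : V} {q : G.Walk u v}
    (hq : q.IsPath) (hnil : ¬ q.Nil) (hk : k < n i) (hu : u = nd i k) (h : q.snd = nd i (k + 1)) :
    (∃ m, k + 1 ≤ m ∧ m ≤ n i ∧ v = nd i m) ∨ t ∈ q.support := by
  obtain ⟨a, b, c⟩ := tail_facts hq hnil
  rcases walk_up C i (n i - (k + 1)) k (q.tail.copy h rfl) (by omega) (by simpa using a)
    (by simpa [← hu] using b) with h | h
  · exact Or.inl h
  · exact Or.inr (c _ (by simpa using h))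

/-- A good path through both ends is a path from one end to the other. -/
theorem good_both (C : Coord G n s t nd) (h3 : ∀ i, 3 ≤ n i) {u v : V} {q : G.Walk u v}
    (hq : Good n s t nd q) (hs : s ∈ q.support) (ht : t ∈ q.support) :
    (u = s ∨ u = t) := by
  classical
  by_contra hc
  push Not at hc
  -- the path leaves its first end towards an inner vertex of branch 0 that was already visited
  obtain ⟨k, hk, hu⟩ := hq.both hs ht u q.start_mem_support
  have k0 : k ≠ 0 := by rintro rfl; exact hc.1 (by rw [hu, C.zero])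
  have kn : k ≠ n 0 := by rintro rfl; exact hc.2 (by rw [hu, C.last])
  -- all vertices `getVert a` are on branch 0; their positions move monotonically
  have hz : ∀ a, ∃ r, r ≤ n 0 ∧ q.getVert a = nd 0 r :=
    fun a => hq.both hs ht _ (q.getVert_mem_support a)
  choose f hf hf' using hz
  have hinj : ∀ a b, a ≤ q.length → b ≤ q.length → f a = f b → a = b := by
    intro a b ha hb h
    exact hq.path.getVert_injOn ha hb (by simp only [hf', h])
  have hstep : ∀ a, a < q.length → f (a + 1) = f a + 1 ∨ f a = f (a + 1) + 1 := by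
    intro a ha
    have hadj := q.adj_getVert_succ ha
    rw [hf', hf'] at hadj
    obtain ⟨j, l, hl, h | h⟩ := C.adj_inv _ _ hadj
    · have := h3 j
      rcases C.same (hf a) hl.le h.1 with h1 | h1 | h1 <;>
        rcases C.same (hf (a + 1)) (show l + 1 ≤ n j by omega) h.2 with h2 | h2 | h2 <;>
        first | omega | skip
      all_goals (obtain ⟨rfl, _⟩ := h1; omega)
    · have := h3 j
      rcases C.same (hf (a + 1)) hl.le h.1 with h1 | h1 | h1 <;>
        rcases C.same (hf a) (show l + 1 ≤ n j by omega) h.2 with h2 | h2 | h2 <;>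
        first | omega | skip
      all_goals (obtain ⟨rfl, _⟩ := h1; omega)
  have f0 : f 0 = k := C.inj 0 _ _ (hf 0) hk (by rw [← hf', ← hu]; simp)
  obtain ⟨a, ha, ha'⟩ := Walk.mem_support_iff_exists_getVert.1 hs
  obtain ⟨b, hb, hb'⟩ := Walk.mem_support_iff_exists_getVert.1 ht
  have fa : f a = 0 := C.eq_s (hf a) (by rw [← hf', ha])
  have fb : f b = n 0 := C.eq_t (hf b) (by rw [← hf', hb])
  have hlen : 0 < q.length := by
    by_contra h
    have : a = 0 := by omega
    subst this
    omega
  rcases hstep 0 hlen with h | h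
  · have : ∀ c, c < q.length → f (c + 1) = f c + 1 ∧ k ≤ f c := by
      intro c
      induction c with
      | zero => intro _; omega
      | succ c ih =>
        intro hc'
        have h1 := ih (by omega)
        have h2 := hstep (c + 1) hc'
        have h4 := hinj c (c + 1 + 1) (by omega) (by omega)
        omega
    rcases a with _ | a
    · omega
    · have := this a (by omega); omega
  · have : ∀ c, c < q.length → f c = f (c + 1) + 1 ∧ f c ≤ k := by
      intro c
      induction c with
      | zero => intro _; omega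
      | succ c ih =>
        intro hc'
        have h1 := ih (by omega)
        have h2 := hstep (c + 1) hc'
        have h4 := hinj c (c + 1 + 1) (by omega) (by omega)
        omega
    rcases b with _ | b
    · omega
    · have := this b (by omega); omega

theorem good_snd (C : Coord G n s t nd) (h3 : ∀ i, 3 ≤ n i) {u v : V} {q p : G.Walk u v}
    (hq : Good n s t nd q) (hp : Good n s t nd p) (huv : u ≠ v) : q.snd = p.snd := by
  have qn : ¬ q.Nil := by rw [hq.path.nil_iff_eq]; exact huv
  have pn : ¬ p.Nil := by rw [hp.path.nil_iff_eq]; exact huv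
  have onzero : ∀ {i k}, 0 < k → k < n i → (∃ r, r ≤ n 0 ∧ nd i k = nd 0 r) → i = 0 := by
    rintro i k k0 kn ⟨r, hr, h⟩
    rcases C.same kn.le hr h with h | h | h
    · exact h.1
    · omega
    · omega
  by_cases hs : u = s
  · subst hs
    -- both start at `s`
    have key : ∀ {q p : G.Walk u v}, Good n u t nd q → Good n u t nd p → ∀ i j, i ≠ j →
        q.snd = nd i 1 → p.snd = nd j 1 → t ∈ q.support → False := by
      intro q p hq hp i j hij h1 h2 ht
      have pn : ¬ p.Nil := by rw [hp.path.nil_iff_eq]; exact huv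
      have := h3 i
      have := h3 j
      have i0 : i = 0 := onzero (by omega) (show 1 < n i by omega)
        (hq.both q.start_mem_support ht _ (h1 ▸ q.getVert_mem_support 1))
      have hpt : t ∉ p.support := fun ht' => hij (i0.trans (onzero (by omega)
        (show 1 < n j by omega)
        (hp.both p.start_mem_support ht' _ (h2 ▸ p.getVert_mem_support 1))).symm)
      rcases first_up C hp.path pn (show 0 < n j by omega) (C.zero j).symm h2 with
        ⟨m, a, b, c⟩ | h
      · have mn : m ≠ n j := by
          rintro rfl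
          rw [C.last] at c
          exact hpt (c ▸ p.end_mem_support)
        exact hij (i0.trans (onzero (by omega) (show m < n j by omega)
          (c ▸ hq.both q.start_mem_support ht _ q.end_mem_support)).symm)
      · exact hpt h
    obtain ⟨i, hi⟩ := C.nbr_s (Walk.adj_snd qn)
    obtain ⟨j, hj⟩ := C.nbr_s (Walk.adj_snd pn)
    by_cases hij : i = j
    · rw [hi, hj, hij]
    · exfalso
      have := h3 i
      have := h3 j
      by_cases c1 : t ∈ q.support
      · exact key hq hp i j hij hi hj c1
      by_cases c2 : t ∈ p.support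
      · exact key hp hq j i (Ne.symm hij) hj hi c2
      rcases first_up C hq.path qn (show 0 < n i by omega) (C.zero i).symm hi with
        ⟨m, a, b, c⟩ | h
      · rcases first_up C hp.path pn (show 0 < n j by omega) (C.zero j).symm hj with
          ⟨m', a', b', c'⟩ | h
        · rcases C.cross i j m m' hij b b' (c.symm.trans c') with h | h
          · omega
          · rw [h.1, C.last] at c
            exact c1 (c ▸ q.end_mem_support)
        · exact c2 h
      · exact c1 h
  by_cases ht : u = t
  · subst ht
    have key : ∀ {q p : G.Walk u v}, Good n s u nd q → Good n s u nd p → ∀ i j k l, i ≠ j →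
        k + 1 = n i → l + 1 = n j →
        q.snd = nd i k → p.snd = nd j l → s ∈ q.support → False := by
      intro q p hq hp i j k l hij hk hl h1 h2 ht
      have pn : ¬ p.Nil := by rw [hp.path.nil_iff_eq]; exact huv
      have := h3 i
      have := h3 j
      have i0 : i = 0 := onzero (by omega) (show k < n i by omega)
        (hq.both ht q.start_mem_support _ (h1 ▸ q.getVert_mem_support 1))
      have hpt : s ∉ p.support := fun ht' => hij (i0.trans (onzero (by omega)
        (show l < n j by omega)
        (hp.both ht' p.start_mem_support _ (h2 ▸ p.getVert_mem_support 1))).symm)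
      rcases first_down C hp.path pn (show l < n j by omega) (by rw [hl, C.last]) h2 with
        ⟨m, a, c⟩ | h
      · have mn : m ≠ 0 := by
          rintro rfl
          rw [C.zero] at c
          exact hpt (c ▸ p.end_mem_support)
        exact hij (i0.trans (onzero (by omega) (show m < n j by omega)
          (c ▸ hq.both ht q.start_mem_support _ q.end_mem_support)).symm)
      · exact hpt h
    obtain ⟨i, k, hk, hi⟩ := C.nbr_t (Walk.adj_snd qn)
    obtain ⟨j, l, hl, hj⟩ := C.nbr_t (Walk.adj_snd pn)
    by_cases hij : i = j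
    · subst hij
      rw [hi, hj, show k = l by omega]
    · exfalso
      by_cases c1 : s ∈ q.support
      · exact key hq hp i j k l hij hk hl hi hj c1
      by_cases c2 : s ∈ p.support
      · exact key hp hq j i l k (Ne.symm hij) hl hk hj hi c2
      rcases first_down C hq.path qn (show k < n i by omega) (by rw [hk, C.last]) hi with
        ⟨m, a, c⟩ | h
      · rcases first_down C hp.path pn (show l < n j by omega) (by rw [hl, C.last]) hj with
          ⟨m', a', c'⟩ | h
        · rcases C.cross i j m m' hij (by omega) (by omega) (c.symm.trans c') with h | h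
          · rw [h.1, C.zero] at c
            exact c1 (c ▸ q.end_mem_support)
          · omega
        · exact c2 h
      · exact c1 h
  obtain ⟨i, k, hk, hu⟩ := C.cover u
  have k0 : k ≠ 0 := by rintro rfl; exact hs (by rw [hu, C.zero])
  have kn : k ≠ n i := by rintro rfl; exact ht (by rw [hu, C.last])
  obtain ⟨k, rfl⟩ : ∃ k', k = k' + 1 := ⟨k - 1, by omega⟩
  have hk' : k + 1 < n i := by omega
  have key : ∀ {q p : G.Walk u v}, Good n s t nd q → Good n s t nd p →
      q.snd = nd i k → p.snd = nd i (k + 2) → False := by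
    intro q p hq hp h1 h2
    have qn : ¬ q.Nil := by rw [hq.path.nil_iff_eq]; exact huv
    have pn : ¬ p.Nil := by rw [hp.path.nil_iff_eq]; exact huv
    have nq : ¬ (s ∈ q.support ∧ t ∈ q.support) := fun h => by
      rcases good_both C h3 hq h.1 h.2 with h | h
      exacts [hs h, ht h]
    have np : ¬ (s ∈ p.support ∧ t ∈ p.support) := fun h => by
      rcases good_both C h3 hp h.1 h.2 with h | h
      exacts [hs h, ht h]
    -- a path that passes an end and returns to the branch passes the other end
    have back_t : ∀ m, m ≤ k → v = nd i m → t ∈ p.support → False := by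
      intro m hm hv htp
      classical
      have hsp : s ∉ p.support := fun h => np ⟨h, htp⟩
      have m0 : m ≠ 0 := by
        rintro rfl
        rw [C.zero] at hv
        exact hsp (hv ▸ p.end_mem_support)
      obtain ⟨a, b, c⟩ := tail_facts hp.path pn
      have ht' : t ∈ p.tail.support := by
        rw [← Walk.cons_support_tail pn, List.mem_cons] at htp
        exact htp.resolve_left (Ne.symm ht)
      have sub := Walk.support_dropUntil_subset_support p.tail ht'
      obtain ⟨x, x1, x2, x3⟩ := stay C i 0 (k + 1) hk (p.tail.dropUntil t ht').reverse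
        ⟨m, by omega, by omega, hv⟩
        (by rw [C.zero]; simpa using fun h => hsp (c _ (sub h)))
        (by rw [← hu]; simpa using fun h => b (sub h))
      have := C.eq_t (show x ≤ n i by omega) x3.symm
      omega
    have back_s : ∀ m, k + 2 ≤ m → m ≤ n i → v = nd i m → s ∈ q.support → False := by
      intro m hm hm' hv hsq
      classical
      have htq : t ∉ q.support := fun h => nq ⟨hsq, h⟩
      have m0 : m ≠ n i := by
        rintro rfl
        rw [C.last] at hv
        exact htq (hv ▸ q.end_mem_support)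
      obtain ⟨a, b, c⟩ := tail_facts hq.path qn
      have hs' : s ∈ q.tail.support := by
        rw [← Walk.cons_support_tail qn, List.mem_cons] at hsq
        exact hsq.resolve_left (Ne.symm hs)
      have sub := Walk.support_dropUntil_subset_support q.tail hs'
      obtain ⟨x, x1, x2, x3⟩ := stay C i (k + 1) (n i) le_rfl (q.tail.dropUntil s hs').reverse
        ⟨m, by omega, by omega, hv⟩
        (by rw [← hu]; simpa using fun h => b (sub h))
        (by rw [C.last]; simpa using fun h => htq (c _ (sub h)))
      have := C.eq_s (show x ≤ n i by omega) x3.symm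
      omega
    rcases first_down C hq.path qn (show k < n i by omega) hu h1 with ⟨m, a, c⟩ | hsq
    · rcases first_up C hp.path pn hk' hu h2 with ⟨m', a', b', c'⟩ | htp
      · have := C.inj i m m' (by omega) b' (c.symm.trans c')
        omega
      · exact back_t m a c htp
    · rcases first_up C hp.path pn hk' hu h2 with ⟨m', a', b', c'⟩ | htp
      · exact back_s m' a' b' c' hsq
      · obtain ⟨j, l, hl, hv⟩ := C.cover v
        by_cases hij : i = j
        · subst hij
          by_cases c1 : l ≤ k
          · exact back_t l c1 hv htp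
          · by_cases c2 : l = k + 1
            · subst c2; exact huv (hu.trans hv.symm)
            · exact back_s l (by omega) hl hv hsq
        · have l0 : l ≠ 0 := by
            rintro rfl
            rw [C.zero] at hv
            exact np ⟨hv ▸ p.end_mem_support, htp⟩
          have ln : l ≠ n j := by
            rintro rfl
            rw [C.last] at hv
            exact nq ⟨hsq, hv ▸ q.end_mem_support⟩
          exact good_clash hq hp hij (show 0 < k + 1 by omega) hk' (show 0 < l by omega)
            (show l < n j by omega) (hu ▸ q.start_mem_support) (hv ▸ q.end_mem_support)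
            (hu ▸ p.start_mem_support) (hv ▸ p.end_mem_support) hsq htp
  have a1 : G.Adj (nd i (k + 1)) q.snd := hu ▸ Walk.adj_snd qn
  have a2 : G.Adj (nd i (k + 1)) p.snd := hu ▸ Walk.adj_snd pn
  rcases C.nbr_inner hk' a1 with h1 | h1 <;> rcases C.nbr_inner hk' a2 with h2 | h2
  · exact h1.trans h2.symm
  · exact (key hq hp h1 h2).elim
  · exact (key hp hq h2 h1).elim
  · exact h1.trans h2.symm

theorem good_unique (C : Coord G n s t nd) (h3 : ∀ i, 3 ≤ n i) {u v : V} (q : G.Walk u v) :
    ∀ p : G.Walk u v, Good n s t nd q → Good n s t nd p → q = p := by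
  induction q with
  | nil =>
    intro p _ hp
    exact (Walk.isPath_iff_nil.1 hp.path).eq_nil.symm
  | @cons u x v h q ih =>
    intro p hq hp
    have huv : u ≠ v := by
      rintro rfl
      have := Walk.isPath_iff_nil.1 hq.path
      simp at this
    cases p with
    | nil => exact absurd rfl huv
    | @cons _ y _ h' p =>
      have e := good_snd C h3 hq hp huv
      simp only [Walk.snd_cons] at e
      subst e
      rw [ih p (hq.of_subset hq.path.of_cons (by simp +contextual))
        (hp.of_subset hp.path.of_cons (by simp +contextual))]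

theorem good_seg (C : Coord G n s t nd) (i : Fin 3) {m r : ℕ} (hmr : m ≤ r) (hr : r ≤ n i)
    (h : m = 0 → r = n i → i = 0) : ∃ q : G.Walk (nd i m) (nd i r), Good n s t nd q := by
  obtain ⟨q, hq, hs, -⟩ := seg_exists C i m r hmr hr
  refine ⟨q, hq, ?_, ?_⟩
  · intro h1 h2 z hz
    rw [hs] at h1 h2 hz
    obtain ⟨a, a1, a2, a3⟩ := h1
    obtain ⟨b, b1, b2, b3⟩ := h2
    obtain ⟨c, c1, c2, c3⟩ := hz
    have := C.eq_s (show a ≤ n i by omega) a3.symm
    have := C.eq_t (show b ≤ n i by omega) b3.symm
    obtain rfl : i = 0 := h (by omega) (by omega)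
    exact ⟨c, by omega, c3⟩
  · intro j k l k0 kn l0 ln h1 h2
    rw [hs] at h1 h2
    obtain ⟨a, a1, a2, a3⟩ := h1
    obtain ⟨b, b1, b2, b3⟩ := h2
    exfalso
    rcases C.same kn.le (show a ≤ n i by omega) a3 with e | e | e
    · rcases C.same ln.le (show b ≤ n i by omega) b3 with e' | e' | e'
      · exact fin3_ne j (e.1.trans e'.1.symm)
      · omega
      · omega
    · omega
    · omega

theorem good_cross (C : Coord G n s t nd) (i : Fin 3) {k l : ℕ} (k0 : 0 < k) (kn : k < n i)
    (l0 : 0 < l) (ln : l < n (i + 1)) :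
    ∃ q : G.Walk (nd i k) (nd (i + 1) l), Good n s t nd q ∧
      ∀ w : Sym2 V → ℝ, (q.edges.map w).sum = if k + 1 = n i then
        (∑ a ∈ Finset.range (n i), w s(nd i a, nd i (a + 1)) -
          ∑ a ∈ Finset.range k, w s(nd i a, nd i (a + 1))) +
        (∑ a ∈ Finset.range (n (i + 1)), w s(nd (i + 1) a, nd (i + 1) (a + 1)) -
          ∑ a ∈ Finset.range l, w s(nd (i + 1) a, nd (i + 1) (a + 1)))
      else ∑ a ∈ Finset.range k, w s(nd i a, nd i (a + 1)) +
          ∑ a ∈ Finset.range l, w s(nd (i + 1) a, nd (i + 1) (a + 1)) := by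
  by_cases hk : k + 1 = n i
  · obtain ⟨q, hq, hs, hw⟩ := via_t C (fin3_ne i) k0 kn.le ln.le
    have hns : s ∉ q.support := by
      intro h
      rcases hs _ h with ⟨a, a1, a2, a3⟩ | ⟨a, a1, a2, a3⟩
      · have := C.eq_s a2 a3.symm; omega
      · have := C.eq_s a2 a3.symm; omega
    refine ⟨q, ⟨hq, fun h => absurd h hns, ?_⟩, fun w => by rw [if_pos hk, hw]⟩
    intro j k' l' k0' kn' l0' ln' h1 h2
    refine ⟨fun h => ?_, fun _ => hns⟩
    exfalso
    rcases hs _ h1 with ⟨a, a1, a2, a3⟩ | ⟨a, a1, a2, a3⟩
    · rcases C.same kn'.le a2 a3 with ⟨rfl, e⟩ | e | e <;> omega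
    · rcases C.same kn'.le a2 a3 with ⟨e, -⟩ | e | e
      · rcases hs _ h2 with ⟨b, b1, b2, b3⟩ | ⟨b, b1, b2, b3⟩
        · rcases C.same ln'.le b2 b3 with ⟨e', -⟩ | e' | e'
          · exact fin3_ne' _ _ e e'.symm
          · omega
          · omega
        · rcases C.same ln'.le b2 b3 with ⟨e', -⟩ | e' | e'
          · exact fin3_ne j (e.trans e'.symm)
          · omega
          · omega
      · omega
      · omega
  · obtain ⟨q, hq, hs, hw⟩ := via_s C (fin3_ne i) kn ln
    have hnt : t ∉ q.support := by
      intro h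
      rcases hs _ h with ⟨a, a1, a3⟩ | ⟨a, a1, a3⟩
      · have := C.eq_t (show a ≤ n i by omega) a3.symm; omega
      · have := C.eq_t (show a ≤ n (i + 1) by omega) a3.symm; omega
    refine ⟨q, ⟨hq, fun _ h => absurd h hnt, ?_⟩, fun w => by rw [if_neg hk, hw]⟩
    intro j k' l' k0' kn' l0' ln' h1 h2
    refine ⟨fun _ => hnt, fun h => ?_⟩
    exfalso
    rcases hs _ h1 with ⟨a, a1, a3⟩ | ⟨a, a1, a3⟩
    · rcases C.same kn'.le (show a ≤ n i by omega) a3 with ⟨rfl, e⟩ | e | e <;> omega
    · rcases C.same kn'.le (show a ≤ n (i + 1) by omega) a3 with ⟨e, -⟩ | e | e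
      · rcases hs _ h2 with ⟨b, b1, b3⟩ | ⟨b, b1, b3⟩
        · rcases C.same ln'.le (show b ≤ n i by omega) b3 with ⟨e', -⟩ | e' | e'
          · exact fin3_ne' _ _ e e'.symm
          · omega
          · omega
        · rcases C.same ln'.le (show b ≤ n (i + 1) by omega) b3 with ⟨e', -⟩ | e' | e'
          · exact fin3_ne j (e.trans e'.symm)
          · omega
          · omega
      · omega
      · omega

theorem good_exists (C : Coord G n s t nd) (u v : V) : ∃ q : G.Walk u v, Good n s t nd q := by
  have flip : ∀ {x y : V}, (∃ q : G.Walk x y, Good n s t nd q) → ∃ q : G.Walk y x, Good n s t nd q :=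
    fun ⟨q, hq⟩ => ⟨q.reverse, hq.reverse⟩
  have onbr : ∀ i k l, k ≤ n i → l ≤ n i → ∃ q : G.Walk (nd i k) (nd i l), Good n s t nd q := by
    have aux : ∀ i k l, k ≤ l → l ≤ n i → ∃ q : G.Walk (nd i k) (nd i l), Good n s t nd q := by
      intro i k l hkl hl
      by_cases h : k = 0 ∧ l = n i
      · obtain ⟨rfl, rfl⟩ := h
        have := good_seg C 0 (Nat.zero_le (n 0)) le_rfl (fun _ _ => rfl)
        rw [C.zero, C.last] at this ⊢
        exact this
      · exact good_seg C i hkl hl (fun a b => absurd ⟨a, b⟩ h)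
    intro i k l hk hl
    rcases le_total k l with h | h
    · exact aux i k l h hl
    · exact flip (aux i l k h hk)
  obtain ⟨i, k, hk, rfl⟩ := C.cover u
  obtain ⟨j, l, hl, rfl⟩ := C.cover v
  by_cases k0 : k = 0
  · subst k0
    rw [(C.zero i).trans (C.zero j).symm]; exact onbr j 0 l (by omega) hl
  by_cases kn : k = n i
  · subst kn
    rw [(C.last i).trans (C.last j).symm]; exact onbr j _ l le_rfl hl
  by_cases l0 : l = 0
  · subst l0
    rw [(C.zero j).trans (C.zero i).symm]; exact onbr i k 0 hk (by omega)
  by_cases ln : l = n j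
  · subst ln
    rw [(C.last j).trans (C.last i).symm]; exact onbr i k _ hk le_rfl
  by_cases hij : i = j
  · subst hij; exact onbr i k l hk hl
  rcases fin3_cases i j hij with rfl | rfl
  · obtain ⟨q, hq, -⟩ := good_cross C i (show 0 < k by omega) (show k < n i by omega)
      (show 0 < l by omega) (show l < n (i + 1) by omega)
    exact ⟨q, hq⟩
  · obtain ⟨q, hq, -⟩ := good_cross C j (show 0 < l by omega) (show l < n j by omega)
      (show 0 < k by omega) (show k < n (j + 1) by omega)
    exact flip ⟨q, hq⟩

theorem not_metrizable (C : Coord G n s t nd) (h3 : ∀ i, 3 ≤ n i) (i0 : Fin 3) (h4 : 4 ≤ n i0) :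
    ¬ Metrizable G := by
  intro hM
  choose P hP using good_exists C
  obtain ⟨w, hw, hmin⟩ := hM P (fun u v => (hP u v).path)
    (fun u v => good_unique C h3 _ _ (hP v u) (hP u v).reverse)
    (fun u v x y q hq => good_unique C h3 _ _
      ((hP u v).of_subset (Walk.isPath_of_isSubwalk hq (hP u v).path)
        (fun z hz => hq.support_subset hz)) (hP x y))
  set A : Fin 3 → ℕ → ℝ := fun i k => ∑ a ∈ Finset.range k, w s(nd i a, nd i (a + 1)) with hA
  have e1 : ∀ i, A i (n i - 2) + A (i + 1) (n (i + 1) - 1) ≤
      (A i (n i) - A i (n i - 2)) + (A (i + 1) (n (i + 1)) - A (i + 1) (n (i + 1) - 1)) := by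
    intro i
    have a := h3 i
    have b := h3 (i + 1)
    obtain ⟨q, hq, hqw⟩ := good_cross C i (show 0 < n i - 2 by omega) (show n i - 2 < n i by omega)
      (show 0 < n (i + 1) - 1 by omega) (show n (i + 1) - 1 < n (i + 1) by omega)
    obtain ⟨p, hp, -, hpw⟩ := via_t C (fin3_ne i) (show 0 < n i - 2 by omega)
      (show n i - 2 ≤ n i by omega) (show n (i + 1) - 1 ≤ n (i + 1) by omega)
    have := hmin _ _ p hp
    rw [← good_unique C h3 q _ hq (hP _ _), hqw, hpw, if_neg (by omega)] at this
    exact this
  have e2 : ∀ i, (A i (n i) - A i (n i - 1)) + (A (i + 1) (n (i + 1)) - A (i + 1) 1) ≤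
      A i (n i - 1) + A (i + 1) 1 := by
    intro i
    have a := h3 i
    have b := h3 (i + 1)
    obtain ⟨q, hq, hqw⟩ := good_cross C i (show 0 < n i - 1 by omega) (show n i - 1 < n i by omega)
      (show 0 < 1 by omega) (show 1 < n (i + 1) by omega)
    obtain ⟨p, hp, -, hpw⟩ := via_s C (fin3_ne i) (show n i - 1 < n i by omega)
      (show 1 < n (i + 1) by omega)
    have := hmin _ _ p hp
    rw [← good_unique C h3 q _ hq (hP _ _), hqw, hpw, if_pos (by omega)] at this
    exact this
  have hstep : ∀ i k, k < n i → A i k < A i (k + 1) := by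
    intro i k hk
    have := hw s(nd i k, nd i (k + 1)) (C.adj i k hk)
    simp only [hA, Finset.sum_range_succ]
    linarith
  have hmono : ∀ i k l, k ≤ l → l ≤ n i → A i k ≤ A i l := by
    intro i k l hkl
    induction l, hkl using Nat.le_induction with
    | base => intro _; exact le_rfl
    | succ l hl ih =>
      intro h
      exact (ih (by omega)).trans (hstep i l (by omega)).le
  have m1 : ∀ i, A i 1 ≤ A i (n i - 2) := fun i => by
    have := h3 i
    exact hmono i _ _ (by omega) (by omega)
  have m2 : A i0 1 < A i0 (n i0 - 2) :=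
    (hstep i0 1 (by omega)).trans_le (hmono i0 _ _ (by omega) (by omega))
  have a0 := e1 0
  have a1 := e1 1
  have a2 := e1 2
  have b0 := e2 0
  have b1 := e2 1
  have b2 := e2 2
  have c0 := m1 0
  have c1 := m1 1
  have c2 := m1 2
  simp only [show (0 : Fin 3) + 1 = 1 from rfl, show (1 : Fin 3) + 1 = 2 from rfl,
    show (2 : Fin 3) + 1 = 0 from rfl] at a0 a1 a2 b0 b1 b2
  fin_cases i0 <;> simp only [Fin.zero_eta, Fin.mk_one, Fin.reduceFinMk] at m2 <;> linarith

theorem classification (hG : IsTheta G n) (hpos : ∀ i, 1 ≤ n i)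
    (hone : ∀ i j, n i = 1 → n j = 1 → i = j) :
    Metrizable G ↔ (∃ i, n i ≤ 2) ∨ ∀ i, n i = 3 := by
  obtain ⟨s, t, nd, C⟩ := hG.coord hpos hone
  constructor
  · intro hM
    by_contra hc
    push Not at hc
    obtain ⟨h1, i0, h2⟩ := hc
    exact not_metrizable C (fun i => h1 i) i0 (by have := h1 i0; omega) hM
  · rintro (⟨i, hi⟩ | h)
    · exact metrizable_of C (threeChain_small n i hi)
    · exact metrizable_of C (threeChain_333 n h)

end Pool.Agent.P.MP_d7339e_co
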