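import Mathlib

/- Pure combinatorics: realising monotone sign patterns by sums of increasing integer sequences. -/

set_option autoImplicit false

namespace Pool.Agent.P.MP_d7339e_co

open Classical in
/-- Two chains: a down-closed relation is a threshold relation. -/
theorem two_chain (N : ℕ) (S : ℕ → ℕ → Prop)
    (hS : ∀ k l k' l', S k l → k' ≤ k → l' ≤ l → S k' l') :
    ∃ x y : ℕ → ℤ, StrictMono x ∧ StrictMono y ∧
      (∀ k l, k < N → l < N → S k l → x k + y l ≤ 0) ∧
      (∀ k l, ¬ S k l → 0 ≤ x k + y l) := by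
  refine ⟨fun k => (k : ℤ) - (((Finset.range N).filter (fun l => S k l)).card : ℤ),
    fun l => (l : ℤ) - (((Finset.range N).filter (fun k => S k l)).card : ℤ), ?_, ?_, ?_, ?_⟩
  · apply strictMono_nat_of_lt_succ
    intro k
    have : ((Finset.range N).filter (fun l => S (k+1) l)).card ≤
        ((Finset.range N).filter (fun l => S k l)).card := by
      apply Finset.card_le_card
      intro l hl
      simp only [Finset.mem_filter] at hl ⊢
      exact ⟨hl.1, hS _ _ _ _ hl.2 (by omega) le_rfl⟩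
    push_cast
    omega
  · apply strictMono_nat_of_lt_succ
    intro l
    have : ((Finset.range N).filter (fun k => S k (l+1))).card ≤
        ((Finset.range N).filter (fun k => S k l)).card := by
      apply Finset.card_le_card
      intro k hk
      simp only [Finset.mem_filter] at hk ⊢
      exact ⟨hk.1, hS _ _ _ _ hk.2 le_rfl (by omega)⟩
    push_cast
    omega
  · intro k l hk hl h
    have h1 : (Finset.range (l+1)).card ≤ ((Finset.range N).filter (fun l => S k l)).card := by
      apply Finset.card_le_card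
      intro l' hl'
      simp only [Finset.mem_filter, Finset.mem_range] at hl' ⊢
      exact ⟨by omega, hS _ _ _ _ h le_rfl (by omega)⟩
    have h2 : (Finset.range (k+1)).card ≤ ((Finset.range N).filter (fun k => S k l)).card := by
      apply Finset.card_le_card
      intro k' hk'
      simp only [Finset.mem_filter, Finset.mem_range] at hk' ⊢
      exact ⟨by omega, hS _ _ _ _ h (by omega) le_rfl⟩
    simp only [Finset.card_range] at h1 h2
    simp only
    omega
  · intro k l h
    have h1 : ((Finset.range N).filter (fun l => S k l)).card ≤ (Finset.range l).card := by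
      apply Finset.card_le_card
      intro l' hl'
      simp only [Finset.mem_filter, Finset.mem_range] at hl' ⊢
      by_contra hc
      exact h (hS _ _ _ _ hl'.2 le_rfl (by omega))
    have h2 : ((Finset.range N).filter (fun k => S k l)).card ≤ (Finset.range k).card := by
      apply Finset.card_le_card
      intro k' hk'
      simp only [Finset.mem_filter, Finset.mem_range] at hk' ⊢
      by_contra hc
      exact h (hS _ _ _ _ hk'.2 (by omega) le_rfl)
    simp only [Finset.card_range] at h1 h2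
    simp only
    omega

/-- A down-closed set of indices is cut off by a threshold of a strictly increasing sequence. -/
theorem cut_exists (N : ℕ) (T : ℕ → Prop) (hT : ∀ k k', T k → k' ≤ k → T k')
    (x : ℕ → ℤ) (hx : StrictMono x) :
    ∃ p : ℤ, (∀ k, k < N → T k → x k ≤ p) ∧ (∀ k, k < N → ¬ T k → p ≤ x k) := by
  classical
  by_cases h : ∃ k, ¬ T k
  · refine ⟨x (Nat.find h), ?_, ?_⟩
    · intro k _ hk
      apply hx.monotone
      by_contra hc
      exact Nat.find_spec h (hT _ _ hk (by omega))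
    · intro k _ hk
      exact hx.monotone (Nat.find_min' h hk)
  · push Not at h
    refine ⟨x N, fun k hk _ => hx.monotone hk.le, fun k _ hk => absurd (h k) hk⟩

/-- Three chains, the first of which has at most one element. -/
theorem three_chain_small (N : ℕ) (Tb Tc : ℕ → Prop) (S : ℕ → ℕ → Prop)
    (hb : ∀ k k', Tb k → k' ≤ k → Tb k') (hc : ∀ k k', Tc k → k' ≤ k → Tc k')
    (hS : ∀ k l k' l', S k l → k' ≤ k → l' ≤ l → S k' l') :
    ∃ (z : ℤ) (x y : ℕ → ℤ), StrictMono x ∧ StrictMono y ∧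
      (∀ k l, k < N → l < N → S k l → x k + y l ≤ 0) ∧
      (∀ k l, k < N → l < N → ¬ S k l → 0 ≤ x k + y l) ∧
      (∀ k, k < N → Tb k → z + x k ≤ 0) ∧ (∀ k, k < N → ¬ Tb k → 0 ≤ z + x k) ∧
      (∀ k, k < N → Tc k → z + y k ≤ 0) ∧ (∀ k, k < N → ¬ Tc k → 0 ≤ z + y k) := by
  obtain ⟨x, y, hx, hy, h1, h2⟩ := two_chain N S hS
  obtain ⟨p, hp1, hp2⟩ := cut_exists N Tb hb x hx
  obtain ⟨q, hq1, hq2⟩ := cut_exists N Tc hc y hy
  refine ⟨-(p+q), fun k => 2 * x k + (q - p), fun k => 2 * y k - (q - p), ?_, ?_, ?_, ?_, ?_, ?_,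
    ?_, ?_⟩
  · intro a b hab; have := hx hab; simp only; omega
  · intro a b hab; have := hy hab; simp only; omega
  · intro k l hk hl h; have := h1 k l hk hl h; simp only; omega
  · intro k l _ _ h; have := h2 k l h; simp only; omega
  · intro k hk h; have := hp1 k hk h; simp only; omega
  · intro k hk h; have := hp2 k hk h; simp only; omega
  · intro k hk h; have := hq1 k hk h; simp only; omega
  · intro k hk h; have := hq2 k hk h; simp only; omega

/-- The witnesses for three chains of two elements. -/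
def wit : List (ℤ × ℤ × ℤ × ℤ × ℤ × ℤ) :=
  [(-3, 3, -3, 3, -3, 3), (-3, -2, -3, -2, 2, 3), (-3, -2, 2, 3, -3, -2), (-3, -2, 2, 3, 2, 3),
   (0, 1, -1, 0, -1, 0), (0, 1, -1, 0, 0, 1), (0, 1, 0, 1, -1, 0), (-3, -2, -2, -1, 1, 2),
   (-3, -2, -2, -1, 2, 3), (-3, -2, 2, 3, -2, -1), (-2, -1, -3, -2, 1, 2), (-2, -1, -3, -2, 2, 3),
   (-2, -1, 1, 2, -3, -2), (-2, -1, 1, 2, 2, 3), (-2, -1, 2, 3, -3, -2), (-2, -1, 2, 3, 1, 2),
   (1, 2, -2, -1, -1, 0), (1, 2, -1, 0, -2, -1), (1, 2, -1, 0, 0, 1), (-3, -2, -3, -2, -3, -2),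
   (-3, -2, -1, 0, 1, 2), (-2, -1, -2, -1, 2, 3), (-2, -1, 2, 3, -2, -1), (-2, -1, 2, 3, 2, 3),
   (-1, 0, -3, -2, 1, 2), (-1, 0, 1, 2, -3, -2), (1, 2, -1, 0, -1, 0)]

def sg (b : Bool) (v : ℤ) : Bool := if b then decide (v ≤ 0) else decide (0 ≤ v)

def sg4 (a b c d : Bool) (x0 x1 y0 y1 : ℤ) : Bool :=
  sg a (x0 + y0) && sg b (x0 + y1) && sg c (x1 + y0) && sg d (x1 + y1)

def mono4 (a b c d : Bool) : Bool := (!b || a) && (!c || a) && (!d || b) && (!d || c)

theorem wit_spec : ∀ a1 a2 a3 a4 : Bool, mono4 a1 a2 a3 a4 = true →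
    ∀ b1 b2 b3 b4 : Bool, mono4 b1 b2 b3 b4 = true →
    ∀ c1 c2 c3 c4 : Bool, mono4 c1 c2 c3 c4 = true →
    (wit.any fun w => decide (w.1 < w.2.1) && decide (w.2.2.1 < w.2.2.2.1) &&
      decide (w.2.2.2.2.1 < w.2.2.2.2.2) &&
      sg4 a1 a2 a3 a4 w.1 w.2.1 w.2.2.1 w.2.2.2.1 &&
      sg4 b1 b2 b3 b4 w.1 w.2.1 w.2.2.2.2.1 w.2.2.2.2.2 &&
      sg4 c1 c2 c3 c4 w.2.2.1 w.2.2.2.1 w.2.2.2.2.1 w.2.2.2.2.2) = true := by
  decide +kernel

theorem sg_spec (p : Prop) [Decidable p] (v : ℤ) (h : sg (decide p) v = true) :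
    (p → v ≤ 0) ∧ (¬ p → 0 ≤ v) := by
  by_cases hp : p <;> simp_all [sg]

theorem mono4_of (S : ℕ → ℕ → Prop) [∀ k l, Decidable (S k l)]
    (hS : ∀ k l k' l', S k l → k' ≤ k → l' ≤ l → S k' l') :
    mono4 (decide (S 0 0)) (decide (S 0 1)) (decide (S 1 0)) (decide (S 1 1)) = true := by
  have h1 := hS 0 1 0 0
  have h2 := hS 1 0 0 0
  have h3 := hS 1 1 0 1
  have h4 := hS 1 1 1 0
  by_cases a : S 0 0 <;> by_cases b : S 0 1 <;> by_cases c : S 1 0 <;> by_cases d : S 1 1 <;>
    simp_all [mono4]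

theorem sg4_spec (S : ℕ → ℕ → Prop) [∀ k l, Decidable (S k l)] (x y : ℕ → ℤ)
    (h : sg4 (decide (S 0 0)) (decide (S 0 1)) (decide (S 1 0)) (decide (S 1 1))
      (x 0) (x 1) (y 0) (y 1) = true) :
    (∀ k l, k < 2 → l < 2 → S k l → x k + y l ≤ 0) ∧
      (∀ k l, k < 2 → l < 2 → ¬ S k l → 0 ≤ x k + y l) := by
  simp only [sg4, Bool.and_eq_true] at h
  obtain ⟨⟨⟨h1, h2⟩, h3⟩, h4⟩ := h
  have g1 := sg_spec _ _ h1
  have g2 := sg_spec _ _ h2
  have g3 := sg_spec _ _ h3
  have g4 := sg_spec _ _ h4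
  constructor <;> intro k l hk hl <;> interval_cases k <;> interval_cases l
  exacts [g1.1, g2.1, g3.1, g4.1, g1.2, g2.2, g3.2, g4.2]

/-- Three chains of two elements each. -/
theorem three_chain_two (A B C : ℕ → ℕ → Prop)
    (hA : ∀ k l k' l', A k l → k' ≤ k → l' ≤ l → A k' l')
    (hB : ∀ k l k' l', B k l → k' ≤ k → l' ≤ l → B k' l')
    (hC : ∀ k l k' l', C k l → k' ≤ k → l' ≤ l → C k' l') :
    ∃ x y z : ℕ → ℤ, StrictMono x ∧ StrictMono y ∧ StrictMono z ∧
      ((∀ k l, k < 2 → l < 2 → A k l → x k + y l ≤ 0) ∧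
        (∀ k l, k < 2 → l < 2 → ¬ A k l → 0 ≤ x k + y l)) ∧
      ((∀ k l, k < 2 → l < 2 → B k l → x k + z l ≤ 0) ∧
        (∀ k l, k < 2 → l < 2 → ¬ B k l → 0 ≤ x k + z l)) ∧
      ((∀ k l, k < 2 → l < 2 → C k l → y k + z l ≤ 0) ∧
        (∀ k l, k < 2 → l < 2 → ¬ C k l → 0 ≤ y k + z l)) := by
  classical
  have h := wit_spec _ _ _ _ (mono4_of A hA) _ _ _ _ (mono4_of B hB) _ _ _ _ (mono4_of C hC)
  rw [List.any_eq_true] at h
  obtain ⟨⟨x0, x1, y0, y1, z0, z1⟩, -, h⟩ := h
  simp only [Bool.and_eq_true, decide_eq_true_eq] at h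
  obtain ⟨⟨⟨⟨⟨hx, hy⟩, hz⟩, h1⟩, h2⟩, h3⟩ := h
  have sm : ∀ a b : ℤ, a < b → StrictMono (fun k : ℕ => a + (k : ℤ) * (b - a)) := by
    intro a b hab
    apply strictMono_nat_of_lt_succ
    intro k
    push_cast
    nlinarith
  refine ⟨fun k => x0 + (k : ℤ) * (x1 - x0), fun k => y0 + (k : ℤ) * (y1 - y0),
    fun k => z0 + (k : ℤ) * (z1 - z0), sm _ _ hx, sm _ _ hy, sm _ _ hz, ?_, ?_, ?_⟩
  · apply sg4_spec; simpa using h1
  · apply sg4_spec; simpa using h2
  · apply sg4_spec; simpa using h3

/-- The three-chain property for the lengths `n`: index `k` stands for the inner vertex `k + 1`. -/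
def ThreeChain (n : Fin 3 → ℕ) : Prop :=
  ∀ S : Fin 3 → Fin 3 → ℕ → ℕ → Prop,
    (∀ i j k l, S i j k l → S j i l k) →
    (∀ i j k l k' l', S i j k l → k' ≤ k → l' ≤ l → S i j k' l') →
    ∃ φ : Fin 3 → ℕ → ℤ, (∀ i, StrictMono (φ i)) ∧
      ∀ i j k l, i ≠ j → k + 1 < n i → l + 1 < n j →
        (S i j k l → φ i k + φ j l ≤ 0) ∧ (¬ S i j k l → 0 ≤ φ i k + φ j l)

theorem threeChain_333 (n : Fin 3 → ℕ) (hn : ∀ i, n i = 3) : ThreeChain n := by
  intro S hsym hmono
  obtain ⟨x, y, z, hx, hy, hz, h1, h2, h3⟩ :=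
    three_chain_two (S 0 1) (S 0 2) (S 1 2) (hmono 0 1) (hmono 0 2) (hmono 1 2)
  refine ⟨![x, y, z], ?_, ?_⟩
  · intro i; fin_cases i <;> simpa
  · intro i j k l hij hk hl
    rw [hn] at hk hl
    have hk' : k < 2 := by omega
    have hl' : l < 2 := by omega
    have flip : ∀ (i j : Fin 3) (u v : ℕ → ℤ),
        ((∀ k l, k < 2 → l < 2 → S i j k l → u k + v l ≤ 0) ∧
          (∀ k l, k < 2 → l < 2 → ¬ S i j k l → 0 ≤ u k + v l)) →
        (S j i k l → v k + u l ≤ 0) ∧ (¬ S j i k l → 0 ≤ v k + u l) := by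
      intro i j u v h
      constructor
      · intro h'
        have := h.1 l k hl' hk' (hsym _ _ _ _ h'); omega
      · intro h'
        have := h.2 l k hl' hk' (fun h'' => h' (hsym _ _ _ _ h'')); omega
    fin_cases i <;> fin_cases j
    · exact absurd rfl hij
    · exact ⟨h1.1 k l hk' hl', h1.2 k l hk' hl'⟩
    · exact ⟨h2.1 k l hk' hl', h2.2 k l hk' hl'⟩
    · exact flip _ _ _ _ h1
    · exact absurd rfl hij
    · exact ⟨h3.1 k l hk' hl', h3.2 k l hk' hl'⟩
    · exact flip _ _ _ _ h2
    · exact flip _ _ _ _ h3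
    · exact absurd rfl hij

theorem threeChain_aux (n : Fin 3 → ℕ) (a b c : Fin 3) (hab : a ≠ b) (hac : a ≠ c) (hbc : b ≠ c)
    (hall : ∀ i, i = a ∨ i = b ∨ i = c) (ha : n a ≤ 2) : ThreeChain n := by
  intro S hsym hmono
  obtain ⟨z, x, y, hx, hy, h1, h2, h3, h4, h5, h6⟩ :=
    three_chain_small (n b + n c) (S a b 0) (S a c 0) (S b c)
      (fun k k' h hk => hmono _ _ _ _ _ _ h le_rfl hk)
      (fun k k' h hk => hmono _ _ _ _ _ _ h le_rfl hk) (hmono b c)
  refine ⟨fun i => if i = a then (fun k => z + (k : ℤ)) else if i = b then x else y, ?_, ?_⟩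
  · intro i
    by_cases hia : i = a
    · simp only [hia, if_true]
      intro p q hpq
      simp only
      omega
    · by_cases hib : i = b
      · subst hib; simpa [hia] using hx
      · simpa [hia, hib] using hy
  · intro i j k l hij hk hl
    have s1 := hsym i j k l
    have s2 := hsym j i l k
    have hba := hab.symm
    have hca := hac.symm
    have hcb := hbc.symm
    rcases hall i with rfl | rfl | rfl <;> rcases hall j with rfl | rfl | rfl <;>
      first
      | exact absurd rfl hij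
      | skip
    · obtain rfl : k = 0 := by omega
      simp only [if_true, if_neg hba, Nat.cast_zero, add_zero]
      exact ⟨h3 l (by omega), h4 l (by omega)⟩
    · obtain rfl : k = 0 := by omega
      simp only [if_true, if_neg hca, if_neg hcb, Nat.cast_zero, add_zero]
      exact ⟨h5 l (by omega), h6 l (by omega)⟩
    · obtain rfl : l = 0 := by omega
      simp only [if_true, if_neg hba, Nat.cast_zero, add_zero]
      rw [add_comm]
      exact ⟨fun h => h3 k (by omega) (s1 h), fun h => h4 k (by omega) (fun h' => h (s2 h'))⟩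
    · simp only [if_true, if_neg hba, if_neg hca, if_neg hcb]
      exact ⟨h1 k l (by omega) (by omega), h2 k l (by omega) (by omega)⟩
    · obtain rfl : l = 0 := by omega
      simp only [if_true, if_neg hca, if_neg hcb, Nat.cast_zero, add_zero]
      rw [add_comm]
      exact ⟨fun h => h5 k (by omega) (s1 h), fun h => h6 k (by omega) (fun h' => h (s2 h'))⟩
    · simp only [if_true, if_neg hba, if_neg hca, if_neg hcb]
      rw [add_comm]
      exact ⟨fun h => h1 l k (by omega) (by omega) (s1 h),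
        fun h => h2 l k (by omega) (by omega) (fun h' => h (s2 h'))⟩

theorem threeChain_small (n : Fin 3 → ℕ) (a : Fin 3) (ha : n a ≤ 2) : ThreeChain n := by
  fin_cases a
  · exact threeChain_aux n 0 1 2 (by decide) (by decide) (by decide) (by decide) ha
  · exact threeChain_aux n 1 0 2 (by decide) (by decide) (by decide) (by decide) ha
  · exact threeChain_aux n 2 0 1 (by decide) (by decide) (by decide) (by decide) ha

/-- Positions along one branch. `R m r` says that the chosen path from vertex `m` to vertex `r`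
goes around. -/
theorem branch (n : ℕ) (hn : 1 ≤ n) (R : ℕ → ℕ → Prop) (geo : Prop)
    (hR : ∀ m r m' r', R m r → m' ≤ m → r ≤ r' → r' ≤ n → R m' r')
    (hlt : ∀ m r, R m r → m < r ∧ r ≤ n)
    (hIF : ∀ m, R m n → R 0 m → False)
    (hgeo : geo → ∀ m r, ¬ R m r) (hngeo : ¬ geo → R 0 n)
    (φ : ℕ → ℤ) (hφ : StrictMono φ) (L : ℤ) (hL : 0 < L)
    (hb : ∀ k, k + 1 < n → -L < φ k ∧ φ k < L) :
    ∃ (ψ : ℕ → ℤ) (H : ℤ), (∀ k, k < n → ψ k < ψ (k + 1)) ∧ ψ 0 = -H ∧ ψ n = H ∧ L ≤ H ∧
      (geo → H = L) ∧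
      (∀ m r, R m r → ψ m + L + H ≤ ψ r) ∧
      (∀ m r, m < r → r ≤ n → ¬ R m r → ψ r ≤ ψ m + L + H) ∧
      (∀ k, k + 1 < n → ¬ R (k + 1) n → ¬ R 0 (k + 1) → ψ (k + 1) = φ k) := by
  classical
  by_cases hg : geo
  · set ψ : ℕ → ℤ := fun k => if k = 0 then -L else if k = n then L else φ (k - 1) with hψ
    have e0 : ψ 0 = -L := by simp [hψ]
    have en : ψ n = L := by simp [hψ, show n ≠ 0 by omega]
    have em : ∀ k, k + 1 < n → ψ (k + 1) = φ k := fun k hk => by
      simp [hψ, show k + 1 ≠ n by omega]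
    have bd : ∀ k, k ≤ n → -L ≤ ψ k ∧ ψ k ≤ L := by
      intro k hk
      rcases k with _ | k
      · omega
      · by_cases h : k + 1 = n
        · rw [h]; omega
        · have := em k (by omega)
          have := hb k (by omega)
          omega
    refine ⟨ψ, L, ?_, e0, en, le_rfl, fun _ => rfl, ?_, ?_, ?_⟩
    · intro k hk
      rcases k with _ | k
      · by_cases h : 0 + 1 = n
        · rw [h]; omega
        · have := em 0 (by omega)
          have := hb 0 (by omega)
          omega
      · have h1 := em k hk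
        have h2 := hb k hk
        by_cases h : k + 1 + 1 = n
        · rw [h]; omega
        · have := em (k+1) (by omega)
          have := hφ (show k < k + 1 by omega)
          omega
    · intro m r h; exact absurd h (hgeo hg m r)
    · intro m r h1 h2 _
      have h3 := bd m (by omega)
      have h4 := bd r h2
      omega
    · intro k hk _ _
      exact em k hk
  · have h0 := hngeo hg
    obtain ⟨x, y, hx, hy, h1, h2⟩ := two_chain (n+1) (fun m r => r ≤ n ∧ R m (n - r))
      (fun k l k' l' h hk hl => ⟨by omega, hR _ _ _ _ h.2 hk (by omega) (by omega)⟩)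
    have a1 : ∀ m r, R m r → x m + y (n - r) ≤ 0 := by
      intro m r h
      have := hlt _ _ h
      apply h1 _ _ (by omega) (by omega)
      refine ⟨by omega, ?_⟩
      rwa [show n - (n - r) = r by omega]
    have a2 : ∀ m r, r ≤ n → ¬ R m r → 0 ≤ x m + y (n - r) := by
      intro m r hr h
      apply h2
      rintro ⟨_, h'⟩
      rw [show n - (n - r) = r by omega] at h'
      exact h h'
    set H : ℤ := - y 0 - x 0 + L with hH
    have hLH : L ≤ H := by
      have := a1 0 n h0
      rw [Nat.sub_self] at this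
      omega
    set ψ : ℕ → ℤ := fun k => if R k n then x k - x 0 - H
      else if R 0 k then - y (n - k) - x 0 + L else φ (k - 1) with hψ
    have eI : ∀ k, R k n → ψ k = x k - x 0 - H := fun k h => by simp [hψ, h]
    have eF : ∀ k, R 0 k → ψ k = - y (n - k) - x 0 + L := fun k h => by
      have : ¬ R k n := fun h' => hIF k h' h
      simp [hψ, h, this]
    have eM : ∀ k, ¬ R k n → ¬ R 0 k → ψ k = φ (k - 1) := fun k h h' => by simp [hψ, h, h']
    have bI : ∀ k, R k n → -H ≤ ψ k ∧ ψ k ≤ -L := by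
      intro k h
      have := a1 k n h
      rw [Nat.sub_self] at this
      have := hx.monotone (Nat.zero_le k)
      rw [eI k h]; omega
    have bF : ∀ k, R 0 k → L ≤ ψ k ∧ ψ k ≤ H := by
      intro k h
      have := a1 0 k h
      have := hy.monotone (Nat.zero_le (n - k))
      rw [eF k h]; omega
    have bM : ∀ k, k ≤ n → ¬ R k n → ¬ R 0 k → -L < ψ k ∧ ψ k < L := by
      intro k hk h h'
      have k0 : k ≠ 0 := by rintro rfl; exact h h0
      have kn : k ≠ n := by rintro rfl; exact h' h0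
      rw [eM k h h']
      exact hb _ (by omega)
    refine ⟨ψ, H, ?_, ?_, ?_, hLH, fun h => absurd h hg, ?_, ?_, ?_⟩
    · intro k hk
      by_cases c1 : R (k+1) n
      · have c2 : R k n := hR _ _ _ _ c1 (by omega) le_rfl le_rfl
        have := hx (show k < k + 1 by omega)
        rw [eI _ c1, eI _ c2]; omega
      · by_cases c3 : R 0 k
        · have c4 : R 0 (k+1) := hR _ _ _ _ c3 le_rfl (by omega) (by omega)
          have := hy (show n - (k+1) < n - k by omega)
          rw [eF _ c3, eF _ c4]; omega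
        · by_cases c2 : R k n
          · have := bI k c2
            by_cases c4 : R 0 (k+1)
            · have := bF _ c4; omega
            · have := bM (k+1) (by omega) c1 c4; omega
          · by_cases c4 : R 0 (k+1)
            · have := bF _ c4
              have := bM k (by omega) c2 c3; omega
            · have k0 : k ≠ 0 := by rintro rfl; exact c2 h0
              rw [eM _ c2 c3, eM _ c1 c4]
              exact hφ (by omega)
    · rw [eI 0 h0]; omega
    · rw [eF n h0, Nat.sub_self]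
    · intro m r h
      have hh := hlt _ _ h
      have c1 : R m n := hR _ _ _ _ h le_rfl hh.2 le_rfl
      have c2 : R 0 r := hR _ _ _ _ h (by omega) le_rfl hh.2
      have := a1 m r h
      rw [eI _ c1, eF _ c2]; omega
    · intro m r hmr hr h
      by_cases c1 : R m n
      · by_cases c2 : R 0 r
        · have := a2 m r hr h
          rw [eI _ c1, eF _ c2]; omega
        · have := bI m c1
          by_cases c3 : R r n
          · have := bI r c3; omega
          · have := bM r hr c3 c2; omega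
      · have hm : -L ≤ ψ m := by
          by_cases c2 : R 0 m
          · have := bF m c2; omega
          · have := bM m (by omega) c1 c2; omega
        have hr' : ψ r ≤ H := by
          by_cases c2 : R 0 r
          · have := bF r c2; omega
          · by_cases c3 : R r n
            · have := bI r c3; omega
            · have := bM r hr c3 c2; omega
        omega
    · intro k hk c1 c2
      rw [eM _ c1 c2]; rfl

end Pool.Agent.P.MP_d7339e_co
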