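import Mathlib

set_option autoImplicit false

namespace Pool.Agent.P.MP_d7339e_co

/-- `G` is metrizable: every consistent path system `P` (one path `P u v` for each pair of
vertices, `P v u` being the same path read backwards, every subpath of a chosen path being the
chosen path between its ends) is induced by positive edge weights, ties allowed. -/
def Metrizable {V : Type} (G : SimpleGraph V) : Prop :=
  ∀ P : (u v : V) → G.Walk u v,
    (∀ u v, (P u v).IsPath) →
    (∀ u v, P v u = (P u v).reverse) →
    (∀ (u v x y : V) (q : G.Walk x y), q.IsSubwalk (P u v) → q = P x y) →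
    ∃ w : Sym2 V → ℝ, (∀ e ∈ G.edgeSet, 0 < w e) ∧
      ∀ (u v : V) (q : G.Walk u v), q.IsPath →
        ((P u v).edges.map w).sum ≤ (q.edges.map w).sum

/-- `G` is the theta graph with path lengths `n 0`, `n 1`, `n 2`: it consists of two vertices
`s`, `t` and three paths from `s` to `t` with these numbers of edges that pairwise share only
`s` and `t`. -/
def IsTheta {V : Type} (G : SimpleGraph V) (n : Fin 3 → ℕ) : Prop :=
  ∃ (s t : V) (p : Fin 3 → G.Walk s t),
    (∀ i, (p i).IsPath) ∧ (∀ i, (p i).length = n i) ∧
    (∀ i j, i ≠ j → ∀ v, v ∈ (p i).support → v ∈ (p j).support → v = s ∨ v = t) ∧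
    (∀ v, ∃ i, v ∈ (p i).support) ∧
    (∀ e ∈ G.edgeSet, ∃ i, e ∈ (p i).edges)

end Pool.Agent.P.MP_d7339e_co
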