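import Pool.Agent.P.MP_d7339e_co.Basic
import Pool.Agent.P.MP_d7339e_co.Comb

/- The three-chain property implies metrizability. -/

set_option autoImplicit false

namespace Pool.Agent.P.MP_d7339e_co

open SimpleGraph

variable {V : Type} {G : SimpleGraph V} {n : Fin 3 → ℕ} {s t : V} {nd : Fin 3 → ℕ → V}
  {P : (u v : V) → G.Walk u v}

/-- From vertex `k + 1` of branch `i` the first step toward `v` goes down. -/
def Dn (P : (u v : V) → G.Walk u v) (nd : Fin 3 → ℕ → V) (i : Fin 3) (k : ℕ) (v : V) : Prop :=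
  nd i (k + 1) ≠ v ∧ (P (nd i (k + 1)) v).snd = nd i k

/-- From vertex `k` of branch `i` the first step toward `v` goes up. -/
def Up (P : (u v : V) → G.Walk u v) (nd : Fin 3 → ℕ → V) (i : Fin 3) (k : ℕ) (v : V) : Prop :=
  nd i k ≠ v ∧ (P (nd i k) v).snd = nd i (k + 1)

theorem excl (S : Sys P) {i : Fin 3} {k : ℕ} {v : V} (h1 : Dn P nd i k v) (h2 : Up P nd i k v) :
    False :=
  S.no_back h1.1 h1.2 h2.2

theorem inner (C : Coord G n s t nd) (S : Sys P) {i : Fin 3} {k : ℕ} {v : V} (hk : k + 1 < n i)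
    (hv : nd i (k + 1) ≠ v) : Dn P nd i k v ∨ Up P nd i (k + 1) v := by
  rcases C.nbr_inner hk (S.adj_snd hv) with h | h
  · exact Or.inl ⟨hv, h⟩
  · exact Or.inr ⟨hv, h⟩

theorem excl' (C : Coord G n s t nd) {i : Fin 3} {k : ℕ} {v : V} (hk : k + 1 < n i)
    (h1 : Dn P nd i k v) (h2 : Up P nd i (k + 1) v) : False := by
  have := C.inj i k (k + 1 + 1) (by omega) (by omega) (h1.2.symm.trans h2.2)
  omega

theorem Dn.mem (C : Coord G n s t nd) (S : Sys P) {i : Fin 3} {v : V} :
    ∀ {k : ℕ}, k + 1 ≤ n i → Dn P nd i k v → ∀ m, m ≤ k → (∀ l, m < l → l ≤ k → nd i l ≠ v) →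
      nd i m ∈ (P (nd i (k + 1)) v).support ∧ Dn P nd i m v := by
  intro k
  induction k with
  | zero =>
    intro _ h m hm _
    obtain rfl : m = 0 := by omega
    exact ⟨h.2 ▸ Sys.snd_mem _ _, h⟩
  | succ k ih =>
    intro hk h m hm hl
    have h0 : nd i (k + 1) ∈ (P (nd i (k + 1 + 1)) v).support := h.2 ▸ Sys.snd_mem _ _
    by_cases hmk : m = k + 1
    · subst hmk; exact ⟨h0, h⟩
    · have h1 : Dn P nd i k v := by
        rcases inner C S (show k + 1 < n i by omega) (hl (k + 1) (by omega) le_rfl) with h2 | h2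
        · exact h2
        · exact (excl S h h2).elim
      obtain ⟨h2, h3⟩ := ih (by omega) h1 m (by omega) (fun l a b => hl l a (by omega))
      exact ⟨S.trans_right h0 h2, h3⟩

theorem Up.mem (C : Coord G n s t nd) (S : Sys P) {i : Fin 3} {v : V} {k : ℕ}
    (h : Up P nd i k v) : ∀ r, k ≤ r → r + 1 ≤ n i → (∀ l, k < l → l ≤ r → nd i l ≠ v) →
      nd i (r + 1) ∈ (P (nd i k) v).support ∧ Up P nd i r v := by
  intro r hr
  induction r, hr using Nat.le_induction with
  | base => intro _ _; exact ⟨h.2 ▸ Sys.snd_mem _ _, h⟩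
  | succ r hr ih =>
    intro hn hl
    obtain ⟨h1, h2⟩ := ih (by omega) (fun l a b => hl l a (by omega))
    have h3 : Up P nd i (r + 1) v := by
      rcases inner C S (show r + 1 < n i by omega) (hl (r + 1) (by omega) le_rfl) with h4 | h4
      · exact (excl S h4 h2).elim
      · exact h4
    exact ⟨S.trans_right h1 (h3.2 ▸ Sys.snd_mem _ _), h3⟩

theorem Dn.to (S : Sys P) {i : Fin 3} {k : ℕ} {v z : V} (h : Dn P nd i k v)
    (hz : z ∈ (P (nd i (k + 1)) v).support) (hne : nd i (k + 1) ≠ z) : Dn P nd i k z :=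
  ⟨hne, (S.snd_eq hz hne).trans h.2⟩

theorem Up.to (S : Sys P) {i : Fin 3} {k : ℕ} {v z : V} (h : Up P nd i k v)
    (hz : z ∈ (P (nd i k) v).support) (hne : nd i k ≠ z) : Up P nd i k z :=
  ⟨hne, (S.snd_eq hz hne).trans h.2⟩

theorem ne_of_mem (S : Sys P) {u z v : V} (hz : z ∈ (P u v).support) (hne : u ≠ z) : u ≠ v := by
  rintro rfl
  rw [S.self_nil] at hz
  simp only [Walk.support_nil, List.mem_singleton] at hz
  exact hne hz.symm

theorem Dn.from (S : Sys P) {i : Fin 3} {k : ℕ} {v z : V} (h : Dn P nd i k z)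
    (hz : z ∈ (P (nd i (k + 1)) v).support) : Dn P nd i k v :=
  ⟨ne_of_mem S hz h.1, (S.snd_eq hz h.1).symm.trans h.2⟩

theorem Up.from (S : Sys P) {i : Fin 3} {k : ℕ} {v z : V} (h : Up P nd i k z)
    (hz : z ∈ (P (nd i k) v).support) : Up P nd i k v :=
  ⟨ne_of_mem S hz h.1, (S.snd_eq hz h.1).symm.trans h.2⟩

theorem Coord.ne (C : Coord G n s t nd) {i : Fin 3} {k l : ℕ} (hk : k ≤ n i) (hl : l ≤ n i)
    (h : k ≠ l) : nd i k ≠ nd i l := fun h' => h (C.inj i k l hk hl h')

theorem Coord.ne' (C : Coord G n s t nd) {i j : Fin 3} {k l : ℕ} (hij : i ≠ j) (hk : k ≤ n i)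
    (hl : l + 1 < n j) : nd i k ≠ nd j (l + 1) := by
  intro h
  rcases C.cross i j k (l + 1) hij hk hl.le h with h | h <;> omega

theorem dn_iff_up (C : Coord G n s t nd) (S : Sys P) {i : Fin 3} {m k : ℕ} (hm : m ≤ k)
    (hk : k + 1 ≤ n i) : Dn P nd i k (nd i m) ↔ Up P nd i m (nd i (k + 1)) := by
  constructor
  · intro h
    have h1 := (Dn.mem C S hk h m hm (fun l a b => C.ne (by omega) (by omega) (by omega))).2
    have h2 : Up P nd i m (nd i (m + 1)) := ⟨h1.1.symm, S.edge_symm h1.1 h1.2⟩
    apply h2.from S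
    by_cases hmk : m = k
    · subst hmk; exact Walk.end_mem_support _
    · exact S.symm
        (Dn.mem C S hk h (m + 1) (by omega) (fun l a b => C.ne (by omega) (by omega) (by omega))).1
  · intro h
    have h1 := (Up.mem C S h k hm hk (fun l a b => C.ne (by omega) (by omega) (by omega))).2
    have h2 : Dn P nd i k (nd i k) := ⟨h1.1.symm, S.edge_symm h1.1 h1.2⟩
    apply h2.from S
    by_cases hmk : m = k
    · subst hmk; exact Walk.end_mem_support _
    · obtain ⟨k, rfl⟩ : ∃ k', k = k' + 1 := ⟨k - 1, by omega⟩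
      exact S.symm (Up.mem C S h k (by omega) (by omega)
        (fun l a b => C.ne (by omega) (by omega) (by omega))).1

/-- The chosen path from vertex `m` to vertex `r` of branch `i` goes around. -/
def Rd (P : (u v : V) → G.Walk u v) (n : Fin 3 → ℕ) (nd : Fin 3 → ℕ → V) (i : Fin 3)
    (m r : ℕ) : Prop :=
  m < r ∧ r ≤ n i ∧ ¬ Dn P nd i (r - 1) (nd i m)

theorem Rd.mono (C : Coord G n s t nd) (S : Sys P) (i : Fin 3) (m r m' r' : ℕ)
    (h : Rd P n nd i m r) (hm : m' ≤ m) (hr : r ≤ r') (hr' : r' ≤ n i) : Rd P n nd i m' r' := by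
  obtain ⟨h1, h2, h3⟩ := h
  refine ⟨by omega, hr', fun h4 => h3 ?_⟩
  obtain ⟨r, rfl⟩ : ∃ k', r = k' + 1 := ⟨r - 1, by omega⟩
  obtain ⟨r', rfl⟩ : ∃ k', r' = k' + 1 := ⟨r' - 1, by omega⟩
  simp only [Nat.add_sub_cancel] at h4 ⊢
  have h5 := (Dn.mem C S hr' h4 r (by omega)
    (fun l a b => C.ne (by omega) (by omega) (by omega))).2
  have h6 := (Dn.mem C S h2 h5 m (by omega)
    (fun l a b => C.ne (by omega) (by omega) (by omega))).1
  exact h5.to S h6 (C.ne (by omega) (by omega) (by omega))

theorem rd_last (C : Coord G n s t nd) (S : Sys P) {i : Fin 3} {m : ℕ} (hm : m < n i) :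
    Rd P n nd i m (n i) ↔ ¬ Up P nd i m t := by
  have := dn_iff_up C S (show m ≤ n i - 1 by omega) (show n i - 1 + 1 ≤ n i by omega)
  rw [show n i - 1 + 1 = n i by omega, C.last] at this
  unfold Rd
  rw [this]
  simp [hm]

theorem rd_first (C : Coord G n s t nd) {i : Fin 3} {k : ℕ} (hk : k + 1 ≤ n i) :
    Rd P n nd i 0 (k + 1) ↔ ¬ Dn P nd i k s := by
  unfold Rd
  rw [C.zero]
  simp [hk]

/-- Going down toward a vertex that is not on the lower part of the branch passes `s`. -/
theorem Dn.pass (C : Coord G n s t nd) (S : Sys P) {i : Fin 3} {k : ℕ} {v : V} (hk : k + 1 ≤ n i)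
    (h : Dn P nd i k v) (hv : ∀ l, 0 < l → l ≤ k → nd i l ≠ v) :
    s ∈ (P (nd i (k + 1)) v).support := by
  have := (Dn.mem C S hk h 0 (by omega) hv).1
  rwa [C.zero] at this

theorem Up.pass (C : Coord G n s t nd) (S : Sys P) {i : Fin 3} {k : ℕ} {v : V} (hk : k + 1 ≤ n i)
    (h : Up P nd i k v) (hv : ∀ l, k < l → l < n i → nd i l ≠ v) :
    t ∈ (P (nd i k) v).support := by
  have := (Up.mem C S h (n i - 1) (by omega) (by omega) (fun l a b => hv l a (by omega))).1
  rwa [show n i - 1 + 1 = n i by omega, C.last] at this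

theorem Coord.ne_s (C : Coord G n s t nd) {i : Fin 3} {k : ℕ} (hk : k ≤ n i) (h : k ≠ 0) :
    nd i k ≠ s := fun h' => h (C.eq_s hk h')

theorem Coord.ne_t (C : Coord G n s t nd) {i : Fin 3} {k : ℕ} (hk : k < n i) :
    nd i k ≠ t := fun h' => by have := C.eq_t hk.le h'; omega

theorem rd_IF (C : Coord G n s t nd) (S : Sys P) (i : Fin 3) (m : ℕ)
    (h1 : Rd P n nd i m (n i)) (h2 : Rd P n nd i 0 m) : False := by
  obtain ⟨m, rfl⟩ : ∃ k', m = k' + 1 := ⟨m - 1, by have := h2.1; omega⟩
  have hm := h1.1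
  rw [rd_last C S hm] at h1
  rw [rd_first C hm.le] at h2
  rcases inner C S hm (C.ne_t hm) with h | h
  · have := h.pass C S hm.le (fun l a b => C.ne_t (by omega))
    exact h2 (h.to S this (C.ne_s hm.le (by omega)))
  · exact h1 h

theorem up_zero_unique (C : Coord G n s t nd) {i j : Fin 3} {v : V} (h1 : Up P nd i 0 v)
    (h2 : Up P nd j 0 v) : i = j := by
  have a := h1.2
  have b := h2.2
  rw [C.zero] at a b
  have := C.pos i
  have := C.pos j
  rcases C.same (show 0 + 1 ≤ n i by omega) (show 0 + 1 ≤ n j by omega) (a.symm.trans b)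
    with h | h | h
  · exact h.1
  · omega
  · exact C.one i j (by omega) (by omega)

/-- The two inner vertices are joined through `s` along their branches. -/
def Sx (P : (u v : V) → G.Walk u v) (n : Fin 3 → ℕ) (nd : Fin 3 → ℕ → V) (i j : Fin 3)
    (k l : ℕ) : Prop :=
  i ≠ j ∧ k + 1 < n i ∧ l + 1 < n j ∧ Dn P nd i k (nd j (l + 1)) ∧ Dn P nd j l (nd i (k + 1))

theorem Sx.symm {i j : Fin 3} {k l : ℕ} (h : Sx P n nd i j k l) : Sx P n nd j i l k :=
  ⟨h.1.symm, h.2.2.1, h.2.1, h.2.2.2.2, h.2.2.2.1⟩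

theorem Sx.mono_left (C : Coord G n s t nd) (S : Sys P) {i j : Fin 3} {k l k' : ℕ}
    (h : Sx P n nd i j k l) (hk : k' ≤ k) : Sx P n nd i j k' l := by
  obtain ⟨h1, h2, h3, h4, h5⟩ := h
  by_cases hkk : k' = k
  · subst hkk; exact ⟨h1, h2, h3, h4, h5⟩
  have a := (Dn.mem C S h2.le h4 k' hk (fun l a b => C.ne' h1 (by omega) h3)).2
  have b := (Dn.mem C S h2.le h4 (k' + 1) (by omega) (fun l a b => C.ne' h1 (by omega) h3)).1
  exact ⟨h1, by omega, h3, a, h5.to S (S.symm b) (C.ne' h1.symm h3.le (by omega))⟩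

theorem Sx.mono (C : Coord G n s t nd) (S : Sys P) (i j : Fin 3) (k l k' l' : ℕ)
    (h : Sx P n nd i j k l) (hk : k' ≤ k) (hl : l' ≤ l) : Sx P n nd i j k' l' :=
  ((h.mono_left C S hk).symm.mono_left C S hl).symm

/-- Distance to `s`. -/
def ds (H L x : ℤ) : ℤ := min (x + H) (H - x + 2 * L)

/-- Distance to `t`. -/
def dt (H L x : ℤ) : ℤ := min (H - x) (x + H + 2 * L)

/-- Distance between two points given by coordinates. -/
def DD (H : Fin 3 → ℤ) (L : ℤ) (i : Fin 3) (x : ℤ) (j : Fin 3) (y : ℤ) : ℤ :=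
  min (min (ds (H i) L x + ds (H j) L y) (dt (H i) L x + dt (H j) L y))
    (if i = j then max (x - y) (y - x) else ds (H i) L x + ds (H j) L y)

theorem DD_s (H : Fin 3 → ℤ) (L : ℤ) (i j : Fin 3) (y : ℤ) (hL : 0 < L) (hi : L ≤ H i)
    (h1 : - H j ≤ y) (h2 : y ≤ H j) : DD H L i (- H i) j y = ds (H j) L y := by
  unfold DD ds dt
  split_ifs with h
  · subst h; omega
  · omega

theorem DD_t (H : Fin 3 → ℤ) (L : ℤ) (i j : Fin 3) (y : ℤ) (hL : 0 < L) (hi : L ≤ H i)
    (h1 : - H j ≤ y) (h2 : y ≤ H j) : DD H L i (H i) j y = dt (H j) L y := by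
  unfold DD ds dt
  split_ifs with h
  · subst h; omega
  · omega

theorem DD_self (H : Fin 3 → ℤ) (L : ℤ) (i : Fin 3) (y : ℤ) (hL : 0 < L)
    (h1 : - H i ≤ y) (h2 : y ≤ H i) : DD H L i y i y = 0 := by
  unfold DD ds dt
  simp only [if_true]
  omega

theorem DD_lip (H : Fin 3 → ℤ) (L : ℤ) (i j : Fin 3) (x x' y : ℤ) (h : x ≤ x') :
    DD H L i x j y ≤ DD H L i x' j y + (x' - x) ∧ DD H L i x' j y ≤ DD H L i x j y + (x' - x) := by
  unfold DD ds dt
  split_ifs with h <;> omega

theorem DD_comm (H : Fin 3 → ℤ) (L : ℤ) (i j : Fin 3) (x y : ℤ) :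
    DD H L i x j y = DD H L j y i x := by
  unfold DD ds dt
  by_cases h : i = j
  · subst h; simp only [if_true]; omega
  · rw [if_neg h, if_neg (Ne.symm h)]; omega

theorem metrizable_of (C : Coord G n s t nd) (h3 : ThreeChain n) : Metrizable G := by
  classical
  intro P hP1 hP2 hP3
  have S : Sys P := ⟨hP1, hP2, hP3⟩
  obtain ⟨g, hg⟩ : ∃ g, Up P nd g 0 t := by
    obtain ⟨g, hg⟩ := C.nbr_s (S.adj_snd C.s_ne_t)
    exact ⟨g, by unfold Up; rw [C.zero]; exact ⟨C.s_ne_t, hg⟩⟩
  obtain ⟨φ, hφ, hφS⟩ := h3 (Sx P n nd) (fun _ _ _ _ h => h.symm) (Sx.mono C S)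
  obtain ⟨L, hL, hLb⟩ : ∃ L : ℤ, 0 < L ∧ ∀ i k, k + 1 < n i → -L < φ i k ∧ φ i k < L := by
    refine ⟨1 + ∑ i, (|φ i 0| + |φ i (n i)|), by positivity, ?_⟩
    intro i k hk
    have h1 : |φ i 0| + |φ i (n i)| ≤ ∑ i, (|φ i 0| + |φ i (n i)|) :=
      Finset.single_le_sum (f := fun i => |φ i 0| + |φ i (n i)|) (fun _ _ => by positivity)
        (Finset.mem_univ i)
    have h2 := (hφ i).monotone (Nat.zero_le k)
    have h4 := (hφ i).monotone (show k ≤ n i by omega)
    have h5 := neg_abs_le (φ i 0)
    have h6 := le_abs_self (φ i (n i))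
    have h7 := abs_nonneg (φ i 0)
    have h8 := abs_nonneg (φ i (n i))
    omega
  have hbr := fun i => branch (n i) (C.pos i) (Rd P n nd i) (i = g) (Rd.mono C S i)
    (fun m r h => ⟨h.1, h.2.1⟩) (rd_IF C S i)
    (by
      rintro rfl m r h
      have := Rd.mono C S _ m r 0 _ h (by omega) h.2.1 le_rfl
      rw [rd_last C S (C.pos _)] at this
      exact this hg)
    (by
      intro hne
      rw [rd_last C S (C.pos _)]
      exact fun h => hne (up_zero_unique C h hg))
    (φ i) (hφ i) L hL (hLb i)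
  choose ψ H hinc h0 hn hLH hgeo hR1 hR2 hM using hbr
  have hmono : ∀ i k l, k ≤ l → l ≤ n i → ψ i k ≤ ψ i l := by
    intro i k l hkl
    induction l, hkl using Nat.le_induction with
    | base => intro _; exact le_rfl
    | succ l hl ih =>
      intro h
      have := ih (by omega)
      have := hinc i l (by omega)
      omega
  have hbd : ∀ i k, k ≤ n i → - H i ≤ ψ i k ∧ ψ i k ≤ H i := by
    intro i k hk
    have := hmono i 0 k (by omega) hk
    have := hmono i k (n i) hk le_rfl
    have := h0 i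
    have := hn i
    omega
  set D : Fin 3 → ℕ → Fin 3 → ℕ → ℤ := fun i k j l => DD H L i (ψ i k) j (ψ j l) with hD
  have hinv : ∀ i k i' k' j l, k ≤ n i → k' ≤ n i' → l ≤ n j → nd i k = nd i' k' →
      D i k j l = D i' k' j l := by
    intro i k i' k' j l hk hk' hl h
    have := hbd j l hl
    rcases C.same hk hk' h with ⟨rfl, rfl⟩ | ⟨rfl, rfl⟩ | ⟨rfl, rfl⟩
    · rfl
    · simp only [hD, h0]
      rw [DD_s _ _ _ _ _ hL (hLH _) this.1 this.2, DD_s _ _ _ _ _ hL (hLH _) this.1 this.2]
    · simp only [hD, hn]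
      rw [DD_t _ _ _ _ _ hL (hLH _) this.1 this.2, DD_t _ _ _ _ _ hL (hLH _) this.1 this.2]
  have hinv' : ∀ i k j l j' l', k ≤ n i → l ≤ n j → l' ≤ n j' → nd j l = nd j' l' →
      D i k j l = D i k j' l' := by
    intro i k j l j' l' hk hl hl' h
    have := hinv j l j' l' i k hl hl' hk h
    simp only [hD] at this ⊢
    rw [DD_comm, this, DD_comm]
  -- the weights
  obtain ⟨w, hw⟩ : ∃ w : Sym2 V → ℝ, ∀ i k, k < n i →
      w s(nd i k, nd i (k + 1)) = ((ψ i (k + 1) - ψ i k : ℤ) : ℝ) := by
    refine ⟨fun e => if h : ∃ p : Fin 3 × ℕ, p.2 < n p.1 ∧ e = s(nd p.1 p.2, nd p.1 (p.2 + 1))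
      then ((ψ h.choose.1 (h.choose.2 + 1) - ψ h.choose.1 h.choose.2 : ℤ) : ℝ) else 0, ?_⟩
    intro i k hk
    have h : ∃ p : Fin 3 × ℕ, p.2 < n p.1 ∧
        s(nd i k, nd i (k + 1)) = s(nd p.1 p.2, nd p.1 (p.2 + 1)) := ⟨(i, k), hk, rfl⟩
    simp only [dif_pos h]
    obtain ⟨h1, h2⟩ := C.edge_inj hk h.choose_spec.1 h.choose_spec.2
    rw [← h2, ← h1]
  -- lower bound for all walks
  have lower : ∀ (u v : V) (q : G.Walk u v) (i : Fin 3) (k : ℕ) (j : Fin 3) (l : ℕ),
      k ≤ n i → l ≤ n j → u = nd i k → v = nd j l → ((D i k j l : ℤ) : ℝ) ≤ (q.edges.map w).sum := by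
    intro u v q
    induction q with
    | nil =>
      intro i k j l hk hl hu hv
      rw [hinv i k j l j l hk hl hl (hu.symm.trans hv)]
      have := hbd j l hl
      simp only [hD]
      rw [DD_self _ _ _ _ hL this.1 this.2]
      simp
    | @cons u u' v hadj q ih =>
      intro i k j l hk hl hu hv
      simp only [Walk.edges_cons, List.map_cons, List.sum_cons]
      obtain ⟨i', k', hk', h | h⟩ := C.adj_inv _ _ hadj
      · rw [hinv i k i' k' j l hk hk'.le hl (hu.symm.trans h.1)]
        have h1 := ih i' (k' + 1) j l hk' hl h.2 hv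
        have h2 := (DD_lip H L i' j (ψ i' k') (ψ i' (k' + 1)) (ψ j l) (hinc i' k' hk').le).1
        have h5 : w s(u, u') = ((ψ i' (k' + 1) - ψ i' k' : ℤ) : ℝ) := by
          rw [h.1, h.2, hw i' k' hk']
        rw [h5]
        have h4 : ((D i' k' j l : ℤ) : ℝ) ≤
            ((D i' (k' + 1) j l + (ψ i' (k' + 1) - ψ i' k') : ℤ) : ℝ) := by exact_mod_cast h2
        push_cast at h4 ⊢
        linarith
      · rw [hinv i k i' (k' + 1) j l hk hk' hl (hu.symm.trans h.2)]
        have h1 := ih i' k' j l hk'.le hl h.1 hv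
        have h2 := (DD_lip H L i' j (ψ i' k') (ψ i' (k' + 1)) (ψ j l) (hinc i' k' hk').le).2
        have h5 : w s(u, u') = ((ψ i' (k' + 1) - ψ i' k' : ℤ) : ℝ) := by
          rw [h.1, h.2, Sym2.eq_swap, hw i' k' hk']
        rw [h5]
        have h4 : ((D i' (k' + 1) j l : ℤ) : ℝ) ≤
            ((D i' k' j l + (ψ i' (k' + 1) - ψ i' k') : ℤ) : ℝ) := by exact_mod_cast h2
        push_cast at h4 ⊢
        linarith
  have hI : ∀ i m, Rd P n nd i m (n i) → ψ i m ≤ -L := by
    intro i m h; have := hR1 i m _ h; have := hn i; omega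
  have hF : ∀ i m, Rd P n nd i 0 m → L ≤ ψ i m := by
    intro i m h; have := hR1 i 0 _ h; have := h0 i; omega
  have hnI : ∀ i m, m < n i → ¬ Rd P n nd i m (n i) → -L ≤ ψ i m := by
    intro i m hm h; have := hR2 i m _ hm le_rfl h; have := hn i; omega
  have hnF : ∀ i m, 0 < m → m ≤ n i → ¬ Rd P n nd i 0 m → ψ i m ≤ L := by
    intro i m hm hm' h; have := hR2 i 0 _ hm hm' h; have := h0 i; omega
  -- a step down is a geodesic step
  have down : ∀ i k j l, k < n i → l ≤ n j → Dn P nd i k (nd j l) →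
      D i k j l + (ψ i (k + 1) - ψ i k) ≤ D i (k + 1) j l := by
    intro i k j l hk hl h
    have b1 := hbd i k hk.le
    have b2 := hbd i (k + 1) hk
    have b3 := hinc i k hk
    have b4 := hLH i
    by_cases hon : ∃ m, m ≤ n i ∧ nd j l = nd i m
    · obtain ⟨m, hm, hm'⟩ := hon
      rw [hinv' i k j l i m hk.le hl hm hm', hinv' i (k + 1) j l i m hk hl hm hm']
      rw [hm'] at h
      have b5 := hbd i m hm
      by_cases hmk : m ≤ k
      · have := hR2 i m (k + 1) (by omega) hk (fun h' => h'.2.2 h)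
        have := hmono i m k hmk hk.le
        simp only [hD]; unfold DD ds dt; simp only [if_true]; omega
      · have hne : m ≠ k + 1 := by rintro rfl; exact h.1 rfl
        obtain ⟨m, rfl⟩ : ∃ k', m = k' + 1 := ⟨m - 1, by omega⟩
        have : Rd P n nd i (k + 1) (m + 1) := by
          refine ⟨by omega, hm, fun h' => ?_⟩
          rw [Nat.add_sub_cancel, dn_iff_up C S (by omega) hm] at h'
          exact excl' C (by omega) h h'
        have := hR1 i _ _ this
        simp only [hD]; unfold DD ds dt; simp only [if_true]; omega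
    · push Not at hon
      have hij : i ≠ j := by rintro rfl; exact hon l hl rfl
      have l0 : l ≠ 0 := by rintro rfl; exact hon 0 (by omega) (by rw [C.zero, C.zero])
      have ln : l ≠ n j := by rintro rfl; exact hon _ le_rfl (by rw [C.last, C.last])
      obtain ⟨l, rfl⟩ : ∃ k', l = k' + 1 := ⟨l - 1, by omega⟩
      have hl' : l + 1 < n j := by omega
      have p1 := h.pass C S hk (fun m a b => (hon m (by omega)).symm)
      have p2 : Dn P nd i k s := h.to S p1 (C.ne_s hk (by omega))
      have p3 := hnF i (k + 1) (by omega) hk (by rw [rd_first C hk]; exact fun h => h p2)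
      have b5 := hbd j (l + 1) hl
      have b6 := hLH j
      have key : ψ i (k + 1) + max (-L) (min L (ψ j (l + 1))) ≤ 0 := by
        by_cases c1 : Rd P n nd j (l + 1) (n j)
        · have := hI j _ c1; omega
        · by_cases hkn : k + 1 = n i
          · exfalso
            rw [rd_last C S hl', not_not] at c1
            rw [hkn, C.last] at p1
            have q1 := S.symm p1
            have q2 : Up P nd j (l + 1) s := c1.to S q1 (C.ne_s hl (by omega))
            have q3 := q2.pass C S hl' (fun m a b => C.ne_s (by omega) (by omega))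
            exact C.s_ne_t (S.antisymm q1 q3)
          · have hk' : k + 1 < n i := by omega
            by_cases c2 : Rd P n nd i (k + 1) (n i)
            · have := hI i _ c2; omega
            · by_cases c3 : Rd P n nd j 0 (l + 1)
              · exfalso
                rw [rd_first C hl] at c3
                rcases inner C S hl' (C.ne_s hl (by omega)) with q | q
                · exact c3 q
                · have q3 := q.pass C S hl' (fun m a b => C.ne_s (by omega) (by omega))
                  have q4 := S.trans_right p1 (S.symm q3)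
                  have q5 : Dn P nd i k t := h.to S q4 (C.ne_t hk')
                  rw [rd_last C S hk', not_not] at c2
                  exact excl' C hk' q5 c2
              · have c4 : ¬ Rd P n nd i 0 (k + 1) := by
                  rw [rd_first C hk]; exact fun h => h p2
                have e1 := hM i k hk' c2 c4
                have e2 := hM j l hl' c1 c3
                rw [rd_first C hl, not_not] at c3
                have := (hφS i j k l hij hk' hl').1 ⟨hij, hk', hl', h, c3.from S (S.symm p1)⟩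
                have := hLb j l hl'
                omega
      simp only [hD]; unfold DD ds dt; simp only [if_neg hij]; omega
  have up : ∀ i k j l, k < n i → l ≤ n j → Up P nd i k (nd j l) →
      D i (k + 1) j l + (ψ i (k + 1) - ψ i k) ≤ D i k j l := by
    intro i k j l hk hl h
    have b1 := hbd i k hk.le
    have b2 := hbd i (k + 1) hk
    have b3 := hinc i k hk
    have b4 := hLH i
    by_cases hon : ∃ m, m ≤ n i ∧ nd j l = nd i m
    · obtain ⟨m, hm, hm'⟩ := hon
      rw [hinv' i k j l i m hk.le hl hm hm', hinv' i (k + 1) j l i m hk hl hm hm']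
      rw [hm'] at h
      have b5 := hbd i m hm
      by_cases hmk : k + 1 ≤ m
      · obtain ⟨m, rfl⟩ : ∃ k', m = k' + 1 := ⟨m - 1, by omega⟩
        rw [← dn_iff_up C S (by omega) hm] at h
        have := hR2 i k (m + 1) (by omega) hm (fun h' => h'.2.2 h)
        have := hmono i (k + 1) (m + 1) hmk hm
        simp only [hD]; unfold DD ds dt; simp only [if_true]; omega
      · have hne : m ≠ k := by rintro rfl; exact h.1 rfl
        obtain ⟨k, rfl⟩ : ∃ k', k = k' + 1 := ⟨k - 1, by omega⟩
        have : Rd P n nd i m (k + 1) :=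
          ⟨by omega, hk.le, fun h' => excl' C hk h' h⟩
        have := hR1 i _ _ this
        simp only [hD]; unfold DD ds dt; simp only [if_true]; omega
    · push Not at hon
      have hij : i ≠ j := by rintro rfl; exact hon l hl rfl
      have l0 : l ≠ 0 := by rintro rfl; exact hon 0 (by omega) (by rw [C.zero, C.zero])
      have ln : l ≠ n j := by rintro rfl; exact hon _ le_rfl (by rw [C.last, C.last])
      obtain ⟨l, rfl⟩ : ∃ k', l = k' + 1 := ⟨l - 1, by omega⟩
      have hl' : l + 1 < n j := by omega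
      have p1 := h.pass C S hk (fun m a b => (hon m (by omega)).symm)
      have p2 : Up P nd i k t := h.to S p1 (C.ne_t hk)
      have c2 : ¬ Rd P n nd i k (n i) := by rw [rd_last C S hk]; exact fun h => h p2
      have p3 := hnI i k hk c2
      have b5 := hbd j (l + 1) hl
      have b6 := hLH j
      have key : 0 ≤ ψ i k + max (-L) (min L (ψ j (l + 1))) := by
        by_cases c1 : Rd P n nd j 0 (l + 1)
        · have := hF j _ c1; omega
        · rcases k with _ | k
          · exfalso
            rw [rd_first C hl, not_not] at c1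
            rw [C.zero] at p1
            have q1 := S.symm p1
            have q2 : Dn P nd j l t := c1.to S q1 (C.ne_t hl')
            have q3 := q2.pass C S hl (fun m a b => C.ne_t (by omega))
            exact C.s_ne_t (S.antisymm q3 q1)
          · by_cases c4 : Rd P n nd i 0 (k + 1)
            · have := hF i _ c4; omega
            · by_cases c3 : Rd P n nd j (l + 1) (n j)
              · exfalso
                rw [rd_last C S hl'] at c3
                rcases inner C S hl' (C.ne_t hl') with q | q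
                · have q3 := q.pass C S hl (fun m a b => C.ne_t (by omega))
                  have q4 := S.trans_right p1 (S.symm q3)
                  have q5 : Up P nd i (k + 1) s := h.to S q4 (C.ne_s hk.le (by omega))
                  rw [rd_first C hk.le, not_not] at c4
                  exact excl' C hk c4 q5
                · exact c3 q
              · have e1 := hM i k hk c2 c4
                have e2 := hM j l hl' c3 c1
                have := (hφS i j k l hij hk hl').2 (fun h' => excl' C hk h'.2.2.2.1 h)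
                have := hLb j l hl'
                omega
      simp only [hD]; unfold DD ds dt; simp only [if_neg hij]; omega
  -- upper bound for the chosen paths
  have upper : ∀ (N : ℕ) (u v : V), (P u v).length = N →
      ∀ (i : Fin 3) (k : ℕ) (j : Fin 3) (l : ℕ), k ≤ n i → l ≤ n j → u = nd i k → v = nd j l →
      ((P u v).edges.map w).sum ≤ ((D i k j l : ℤ) : ℝ) := by
    intro N
    induction N with
    | zero =>
      intro u v hN i k j l hk hl hu hv
      have huv : u = v := Walk.eq_of_length_eq_zero hN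
      subst huv
      rw [S.self_nil, hinv i k j l j l hk hl hl (hu.symm.trans hv)]
      have := hbd j l hl
      simp only [hD]
      rw [DD_self _ _ _ _ hL this.1 this.2]
      simp
    | succ N ih =>
      intro u v hN i k j l hk hl hu hv
      have huv : u ≠ v := by
        rintro rfl
        rw [S.self_nil] at hN
        simp at hN
      have hc := S.eq_cons huv
      have hlen : (P (P u v).snd v).length = N := by
        rw [hc] at hN
        simpa using hN
      have hsum : ((P u v).edges.map w).sum =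
          w s(u, (P u v).snd) + ((P (P u v).snd v).edges.map w).sum := by
        conv_lhs => rw [hc]
        simp
      rw [hsum]
      obtain ⟨i', k', hk', h | h⟩ := C.adj_inv _ _ (S.adj_snd huv)
      · rw [hinv i k i' k' j l hk hk'.le hl (hu.symm.trans h.1)]
        have h1 := ih _ _ hlen i' (k' + 1) j l hk' hl h.2 hv
        have h2 := up i' k' j l hk' hl ⟨by rw [← h.1, ← hv]; exact huv, by
          rw [← h.2, ← h.1, ← hv]⟩
        have h5 : w s(u, (P u v).snd) = ((ψ i' (k' + 1) - ψ i' k' : ℤ) : ℝ) := by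
          rw [h.2, ← hw i' k' hk', ← h.1]
        have h4 : ((D i' (k' + 1) j l + (ψ i' (k' + 1) - ψ i' k') : ℤ) : ℝ) ≤
            ((D i' k' j l : ℤ) : ℝ) := by exact_mod_cast h2
        rw [h5]
        push_cast at h4 ⊢
        linarith
      · rw [hinv i k i' (k' + 1) j l hk hk' hl (hu.symm.trans h.2)]
        have h1 := ih _ _ hlen i' k' j l hk'.le hl h.1 hv
        have h2 := down i' k' j l hk' hl ⟨by rw [← h.2, ← hv]; exact huv, by
          rw [← h.1, ← h.2, ← hv]⟩
        have h5 : w s(u, (P u v).snd) = ((ψ i' (k' + 1) - ψ i' k' : ℤ) : ℝ) := by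
          rw [h.1, ← hw i' k' hk', ← h.2, Sym2.eq_swap]
        have h4 : ((D i' k' j l + (ψ i' (k' + 1) - ψ i' k') : ℤ) : ℝ) ≤
            ((D i' (k' + 1) j l : ℤ) : ℝ) := by exact_mod_cast h2
        rw [h5]
        push_cast at h4 ⊢
        linarith
  refine ⟨w, ?_, ?_⟩
  · intro e he
    induction e using Sym2.ind with
    | _ u v =>
      obtain ⟨i, k, hk, h | h⟩ := C.adj_inv u v he
      · rw [h.1, h.2, hw i k hk]
        have := hinc i k hk
        exact_mod_cast (by omega : (0 : ℤ) < ψ i (k + 1) - ψ i k)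
      · rw [h.1, h.2, Sym2.eq_swap, hw i k hk]
        have := hinc i k hk
        exact_mod_cast (by omega : (0 : ℤ) < ψ i (k + 1) - ψ i k)
  · intro u v q _
    obtain ⟨i, k, hk, hu⟩ := C.cover u
    obtain ⟨j, l, hl, hv⟩ := C.cover v
    exact (upper _ u v rfl i k j l hk hl hu hv).trans (lower u v q i k j l hk hl hu hv)

end Pool.Agent.P.MP_d7339e_co
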