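import Pool.Agent.P.MP_d7339e_co.Bwd

set_option autoImplicit false

namespace Pool.Agent.Results.MP_d7339e_co.Classification

open Pool.Agent.P.MP_d7339e_co

/-- The theta graph with path lengths `a`, `b`, `c` is metrizable exactly when one of the lengths
is at most 2 or all three equal 3. -/
theorem result {V : Type} (G : SimpleGraph V) (a b c : ℕ) (ha : 1 ≤ a) (hb : 1 ≤ b) (hc : 1 ≤ c)
    (hab : ¬ (a = 1 ∧ b = 1)) (hac : ¬ (a = 1 ∧ c = 1)) (hbc : ¬ (b = 1 ∧ c = 1))
    (hG : IsTheta G ![a, b, c]) :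
    Metrizable G ↔ (min a (min b c) ≤ 2 ∨ (a = 3 ∧ b = 3 ∧ c = 3)) := by
  rw [classification hG (by intro i; fin_cases i <;> simpa)
    (by intro i j; fin_cases i <;> fin_cases j <;> simp <;> omega)]
  simp only [Fin.exists_fin_succ, Fin.forall_fin_succ]
  simp

end Pool.Agent.Results.MP_d7339e_co.Classification
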